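import Mathlib

/-!
# Chromatic roots of graphs without a `K₄` minor: definitions
-/

set_option autoImplicit false

open Polynomial

namespace Pool.Agent.SPG

/-- `G` has a `K₄` minor: there are four pairwise disjoint connected (in particular nonempty) sets
of vertices, any two of which are joined by an edge of `G`. -/
def HasK4Minor {V : Type} (G : SimpleGraph V) : Prop :=
  ∃ B : Fin 4 → Set V, (∀ i, (G.induce (B i)).Connected) ∧
    (∀ i j, i ≠ j → Disjoint (B i) (B j)) ∧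
    ∀ i j, i ≠ j → ∃ x ∈ B i, ∃ y ∈ B j, G.Adj x y

/-- The graph with the edges in `E` (loops in `E` are ignored). -/
def gr {V : Type} (E : Finset (Sym2 V)) : SimpleGraph V := SimpleGraph.fromEdgeSet (E : Set (Sym2 V))

/-- The weighted number of maps `V → Fin n`: the edge `e` has weight `A e` if its ends get the same
value and `B e` otherwise. -/
noncomputable def Z {V : Type} [Fintype V] [DecidableEq V] (E : Finset (Sym2 V))
    (A B : Sym2 V → ℂ[X]) (n : ℕ) : ℂ :=
  ∑ σ : V → Fin n, ∏ e ∈ E,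
    if (e.map σ).IsDiag then (A e).eval (n : ℂ) else (B e).eval (n : ℂ)

/-- `(1 + r) / (1 + r / D)`. -/
noncomputable def Yt (D : ℕ) (r : ℝ) : ℝ := (1 + r) / (1 + r / D)

/-- `(D² + D) / (D² + 1)`. -/
noncomputable def Y0 (D : ℕ) : ℝ := ((D : ℝ) ^ 2 + D) / ((D : ℝ) ^ 2 + 1)

/-- `⌊(D + 1) / 2⌋`. -/
def J (D : ℕ) : ℕ := (D + 1) / 2

/-- The bound for the last element. -/
noncomputable def TT (D j : ℕ) : ℝ := if j ≤ J D then Y0 D else Yt D (2 / D)

/-- First three clauses of the bound. -/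
def Bd3 (D a b : ℕ) (r : ℝ) : Prop := 0 ≤ r ∧ r ≤ 2 ∧ (min a b ≤ J D → r ≤ 1)

/-- The bound for the modulus `r` of a network without direct edge with terminal degrees `a`, `b`. -/
def Bd (D a b : ℕ) (r : ℝ) : Prop :=
  Bd3 D a b r ∧ (2 ≤ D → Yt D r ≤ Y0 D ^ (min a b - 1) * TT D (max a b - min a b + 1))

/-- The normalised transmissivity. -/
noncomputable def zz (q α β : ℂ) : ℂ := (q - 1) * (α - β) / (α + (q - 1) * β)

/-- The pair `(α, β)` (weight for equal, for different ends) is good with terminal degrees `a`, `b`. -/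
def Good (D : ℕ) (q : ℂ) (a b : ℕ) (α β : ℂ) : Prop :=
  α + (q - 1) * β ≠ 0 ∧ (a ≤ D → b ≤ D → α = 0 ∨ Bd D a b ‖zz q α β‖)

/-- Series weights. -/
noncomputable def serA (A₁ B₁ A₂ B₂ : ℂ[X]) : ℂ[X] := A₁ * A₂ + (X - 1) * (B₁ * B₂)

/-- Series weights. -/
noncomputable def serB (A₁ B₁ A₂ B₂ : ℂ[X]) : ℂ[X] := A₁ * B₂ + B₁ * A₂ + (X - 2) * (B₁ * B₂)

end Pool.Agent.SPG
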