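import Mathlib
import Pool.Agent.SPG.Defs

/-!
# Chromatic roots of graphs without a `K₄` minor: statements of the modules
-/

set_option autoImplicit false

open Polynomial

namespace Pool.Agent.SPG

/-- Module NUM: four numerical inequalities. -/
def Stmt_NUM : Prop := ∀ D : ℕ, 2 ≤ D →
  1 < Y0 D ∧ Y0 D = Yt D (1 / D) ∧
  Y0 D ^ J D ≤ Yt D 1 ∧ Y0 D ^ D ≤ Yt D 2 ∧
  Y0 D ^ (D / 2 - 1) * Yt D (2 / D) ≤ Yt D 1 ∧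
  Y0 D ≤ Yt D (2 / D) ∧ Yt D (2 / D) ≤ Y0 D ^ 2

/-- Module RSER: real lemma for the series composition. -/
def Stmt_RSER : Prop := ∀ (D a b b₁ a₂ : ℕ) (r₁ r₂ r : ℝ),
  1 ≤ a → 1 ≤ b → 1 ≤ b₁ → 1 ≤ a₂ → a ≤ D → b ≤ D → b₁ + a₂ ≤ D + 1 →
  Bd3 D a b₁ r₁ → Bd3 D a₂ b r₂ → 0 ≤ r → r ≤ r₁ * r₂ / D → Bd D a b r

/-- Module RPAR: real lemma for the parallel composition. -/
def Stmt_RPAR : Prop := ∀ (D a₁ b₁ a₂ b₂ : ℕ) (r₁ r₂ r : ℝ),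
  1 ≤ a₁ → 1 ≤ b₁ → 1 ≤ a₂ → 1 ≤ b₂ → a₁ + a₂ ≤ D → b₁ + b₂ ≤ D →
  Bd D a₁ b₁ r₁ → Bd D a₂ b₂ r₂ → 0 ≤ r →
  r * (1 - r₁ * r₂ / D) ≤ r₁ + r₂ + (1 + 1 / D) * (r₁ * r₂) →
  Bd D (a₁ + a₂) (b₁ + b₂) r

/-- Module RPROD: the product of the two moduli in a parallel composition. -/
def Stmt_RPROD : Prop := ∀ (D a₁ b₁ a₂ b₂ : ℕ) (r₁ r₂ : ℝ),
  1 ≤ a₁ → 1 ≤ b₁ → 1 ≤ a₂ → 1 ≤ b₂ → a₁ + a₂ ≤ D + 1 → b₁ + b₂ ≤ D + 1 →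
  Bd3 D a₁ b₁ r₁ → Bd3 D a₂ b₂ r₂ →
  r₁ * r₂ ≤ D ∧ (a₁ + a₂ ≤ D → b₁ + b₂ ≤ D → r₁ * r₂ < D)

/-- Module CSER: series composition of good pairs. -/
def Stmt_CSER : Prop := ∀ (D : ℕ) (q : ℂ) (a b b₁ a₂ : ℕ) (α₁ β₁ α₂ β₂ : ℂ),
  q ≠ 0 → (D : ℝ) < ‖q - 1‖ →
  1 ≤ a → 1 ≤ b → 1 ≤ b₁ → 1 ≤ a₂ → b₁ + a₂ ≤ D + 1 →
  Good D q a b₁ α₁ β₁ → Good D q a₂ b α₂ β₂ →
  Good D q a b (α₁ * α₂ + (q - 1) * (β₁ * β₂)) (α₁ * β₂ + β₁ * α₂ + (q - 2) * (β₁ * β₂))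

/-- Module CPAR: parallel composition of good pairs. -/
def Stmt_CPAR : Prop := ∀ (D : ℕ) (q : ℂ) (a₁ b₁ a₂ b₂ : ℕ) (α₁ β₁ α₂ β₂ : ℂ),
  q ≠ 0 → (D : ℝ) < ‖q - 1‖ →
  1 ≤ a₁ → 1 ≤ b₁ → 1 ≤ a₂ → 1 ≤ b₂ → a₁ + a₂ ≤ D + 1 → b₁ + b₂ ≤ D + 1 →
  Good D q a₁ b₁ α₁ β₁ → Good D q a₂ b₂ α₂ β₂ →
  Good D q (a₁ + a₂) (b₁ + b₂) (α₁ * α₂) (β₁ * β₂)

/-- Module DIR: a graph with an edge in which every vertex of positive degree has degree at least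
three has a `K₄` minor. -/
def Stmt_DIR : Prop := ∀ (V : Type) [Fintype V] [DecidableEq V] (G : SimpleGraph V)
  [DecidableRel G.Adj], (∃ x y, G.Adj x y) → (∀ x y, G.Adj x y → 3 ≤ G.degree x) → HasK4Minor G

/-- Module SUP: deleting an edge, and replacing a vertex of degree two by an edge, create no `K₄`
minor. -/
def Stmt_SUP : Prop := ∀ (V : Type) [DecidableEq V] (E : Finset (Sym2 V)) (w s t : V),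
  w ≠ s → w ≠ t → s ≠ t → s(w, s) ∈ E → s(w, t) ∈ E →
  (∀ e ∈ E, w ∈ e → e = s(w, s) ∨ e = s(w, t)) →
  HasK4Minor (gr (insert s(s, t) ((E.erase s(w, s)).erase s(w, t)))) → HasK4Minor (gr E)

/-- Module PEND: removal of a pendant edge. -/
def Stmt_PEND : Prop := ∀ (V : Type) [Fintype V] [DecidableEq V] (E : Finset (Sym2 V))
  (A B : Sym2 V → ℂ[X]) (w s : V), w ≠ s → s(w, s) ∈ E → (∀ e ∈ E, w ∈ e → e = s(w, s)) →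
  ∀ n : ℕ, (n : ℂ) * Z E A B n =
    ((A s(w, s)).eval (n : ℂ) + ((n : ℂ) - 1) * (B s(w, s)).eval (n : ℂ)) *
      Z (E.erase s(w, s)) A B n

/-- Module SRED: a vertex of degree two is replaced by an edge. -/
def Stmt_SRED : Prop := ∀ (V : Type) [Fintype V] [DecidableEq V] (E : Finset (Sym2 V))
  (A B : Sym2 V → ℂ[X]) (w s t : V), w ≠ s → w ≠ t → s ≠ t → s(w, s) ∈ E → s(w, t) ∈ E →
  (∀ e ∈ E, w ∈ e → e = s(w, s) ∨ e = s(w, t)) →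
  ∀ n : ℕ, (n : ℂ) * Z E A B n =
    Z (insert s(s, t) ((E.erase s(w, s)).erase s(w, t)))
      (Function.update A s(s, t) (serA (A s(w, s)) (B s(w, s)) (A s(w, t)) (B s(w, t)) *
        (if s(s, t) ∈ E then A s(s, t) else 1)))
      (Function.update B s(s, t) (serB (A s(w, s)) (B s(w, s)) (A s(w, t)) (B s(w, t)) *
        (if s(s, t) ∈ E then B s(s, t) else 1))) n

end Pool.Agent.SPG
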