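import Mathlib
import Pool.Agent.SPG.Stmts

/-!
# Chromatic roots of graphs without a `K₄` minor: parallel composition of good pairs
-/

set_option autoImplicit false

open Polynomial

namespace Pool.Agent.SPG

namespace CPAR

/-- the pair with `α = 0` has `zz = -1` -/
lemma zz_zero {q β : ℂ} (h : (0 : ℂ) + (q - 1) * β ≠ 0) : zz q 0 β = -1 := by
  unfold zz
  rw [div_eq_iff h]
  ring

/-- every good pair satisfies the first three clauses -/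
lemma bd3_of_good {D : ℕ} {q α β : ℂ} {a b : ℕ} (h : Good D q a b α β) (ha : a ≤ D)
    (hb : b ≤ D) : Bd3 D a b ‖zz q α β‖ := by
  rcases h.2 ha hb with h0 | h1
  · have hC := h.1
    subst h0
    rw [zz_zero hC, norm_neg, norm_one]
    exact ⟨by norm_num, by norm_num, fun _ => le_refl _⟩
  · exact h1.1

/-- the denominators multiply -/
lemma den_eq {q α₁ β₁ α₂ β₂ : ℂ} (hq : q - 1 ≠ 0) (h1 : α₁ + (q - 1) * β₁ ≠ 0)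
    (h2 : α₂ + (q - 1) * β₂ ≠ 0) :
    q * (α₁ * α₂ + (q - 1) * (β₁ * β₂)) =
      (α₁ + (q - 1) * β₁) * (α₂ + (q - 1) * β₂) *
        (1 + zz q α₁ β₁ * zz q α₂ β₂ / (q - 1)) := by
  unfold zz
  field_simp
  ring

/-- the parallel formula -/
lemma par_eq {q α₁ β₁ α₂ β₂ : ℂ} (hq : q - 1 ≠ 0) (h1 : α₁ + (q - 1) * β₁ ≠ 0)
    (h2 : α₂ + (q - 1) * β₂ ≠ 0) (h12 : α₁ * α₂ + (q - 1) * (β₁ * β₂) ≠ 0) :
    zz q (α₁ * α₂) (β₁ * β₂) * (1 + zz q α₁ β₁ * zz q α₂ β₂ / (q - 1)) =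
      zz q α₁ β₁ + zz q α₂ β₂ + (1 - 1 / (q - 1)) * (zz q α₁ β₁ * zz q α₂ β₂) := by
  have hd := den_eq (α₁ := α₁) (β₁ := β₁) (α₂ := α₂) (β₂ := β₂) hq h1 h2
  have hz : zz q (α₁ * α₂) (β₁ * β₂) * (α₁ * α₂ + (q - 1) * (β₁ * β₂)) =
      (q - 1) * (α₁ * α₂ - β₁ * β₂) := by
    unfold zz
    rw [div_mul_cancel₀ _ h12]
  have hCC : (α₁ + (q - 1) * β₁) * (α₂ + (q - 1) * β₂) ≠ 0 := mul_ne_zero h1 h2
  apply mul_left_cancel₀ hCC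
  calc (α₁ + (q - 1) * β₁) * (α₂ + (q - 1) * β₂) *
        (zz q (α₁ * α₂) (β₁ * β₂) * (1 + zz q α₁ β₁ * zz q α₂ β₂ / (q - 1)))
      = zz q (α₁ * α₂) (β₁ * β₂) * ((α₁ + (q - 1) * β₁) * (α₂ + (q - 1) * β₂) *
        (1 + zz q α₁ β₁ * zz q α₂ β₂ / (q - 1))) := by ring
    _ = q * (zz q (α₁ * α₂) (β₁ * β₂) * (α₁ * α₂ + (q - 1) * (β₁ * β₂))) := by
        rw [← hd]; ring
    _ = q * ((q - 1) * (α₁ * α₂ - β₁ * β₂)) := by rw [hz]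
    _ = (α₁ + (q - 1) * β₁) * (α₂ + (q - 1) * β₂) *
        (zz q α₁ β₁ + zz q α₂ β₂ + (1 - 1 / (q - 1)) * (zz q α₁ β₁ * zz q α₂ β₂)) := by
        unfold zz
        field_simp
        ring

end CPAR

theorem t_CPAR (hR : Stmt_RPAR) (hP : Stmt_RPROD) : Stmt_CPAR := by
  intro D q a₁ b₁ a₂ b₂ α₁ β₁ α₂ β₂ hq hD ha₁ hb₁ ha₂ hb₂ hab hbb g₁ g₂
  have hA₁ : a₁ ≤ D := by omega
  have hA₂ : a₂ ≤ D := by omega
  have hB₁ : b₁ ≤ D := by omega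
  have hB₂ : b₂ ≤ D := by omega
  have hD1 : (1 : ℝ) ≤ D := by exact_mod_cast (by omega : 1 ≤ D)
  have hD0 : (0 : ℝ) < D := by linarith
  have hq1n : 0 < ‖q - 1‖ := by linarith
  have hq1 : q - 1 ≠ 0 := norm_pos_iff.mp hq1n
  have c₁ := g₁.1
  have c₂ := g₂.1
  have b3₁ := CPAR.bd3_of_good g₁ hA₁ hB₁
  have b3₂ := CPAR.bd3_of_good g₂ hA₂ hB₂
  obtain ⟨hprod, -⟩ := hP D a₁ b₁ a₂ b₂ _ _ ha₁ hb₁ ha₂ hb₂ hab hbb b3₁ b3₂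
  set z₁ := zz q α₁ β₁ with hz₁
  set z₂ := zz q α₂ β₂ with hz₂
  -- the factor
  have hnz : ‖z₁ * z₂ / (q - 1)‖ = ‖z₁‖ * ‖z₂‖ / ‖q - 1‖ := by
    rw [norm_div, norm_mul]
  have hlt : ‖z₁ * z₂ / (q - 1)‖ < 1 := by
    rw [hnz, div_lt_one hq1n]
    linarith
  have hfac : 1 + z₁ * z₂ / (q - 1) ≠ 0 := by
    intro h
    have h2 : z₁ * z₂ / (q - 1) = -1 := by linear_combination h
    rw [h2, norm_neg, norm_one] at hlt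
    exact lt_irrefl _ hlt
  have hd := CPAR.den_eq (α₁ := α₁) (β₁ := β₁) (α₂ := α₂) (β₂ := β₂) hq1 c₁ c₂
  have h12 : α₁ * α₂ + (q - 1) * (β₁ * β₂) ≠ 0 := by
    intro h
    rw [h, mul_zero] at hd
    exact mul_ne_zero (mul_ne_zero c₁ c₂) hfac hd.symm
  refine ⟨h12, fun hsa hsb => ?_⟩
  rcases g₁.2 hA₁ hB₁ with h0 | e₁
  · left; rw [h0, zero_mul]
  rcases g₂.2 hA₂ hB₂ with h0 | e₂
  · left; rw [h0, mul_zero]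
  right
  refine hR D a₁ b₁ a₂ b₂ _ _ _ ha₁ hb₁ ha₂ hb₂ hsa hsb e₁ e₂ (norm_nonneg _) ?_
  have hpe := CPAR.par_eq hq1 c₁ c₂ h12
  rw [← hz₁, ← hz₂] at hpe
  have hn := congrArg norm hpe
  rw [norm_mul] at hn
  have hrr : 0 ≤ ‖z₁‖ * ‖z₂‖ := by positivity
  have hle1 : ‖z₁‖ * ‖z₂‖ / ‖q - 1‖ ≤ ‖z₁‖ * ‖z₂‖ / D :=
    div_le_div_of_nonneg_left hrr hD0 hD.le
  have hlow : 1 - ‖z₁‖ * ‖z₂‖ / D ≤ ‖1 + z₁ * z₂ / (q - 1)‖ := by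
    have h1 : ‖(1 : ℂ)‖ - ‖-(z₁ * z₂ / (q - 1))‖ ≤ ‖(1 : ℂ) - -(z₁ * z₂ / (q - 1))‖ :=
      norm_sub_norm_le _ _
    rw [norm_one, norm_neg, sub_neg_eq_add, hnz] at h1
    linarith
  have hinv : ‖(1 : ℂ) - 1 / (q - 1)‖ ≤ 1 + 1 / D := by
    have h1 : ‖(1 : ℂ) - 1 / (q - 1)‖ ≤ ‖(1 : ℂ)‖ + ‖1 / (q - 1)‖ := norm_sub_le _ _
    have h2 : ‖1 / (q - 1)‖ ≤ 1 / (D : ℝ) := by
      rw [norm_div, norm_one]
      exact one_div_le_one_div_of_le hD0 hD.le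
    rw [norm_one] at h1
    linarith
  have hup : ‖z₁ + z₂ + (1 - 1 / (q - 1)) * (z₁ * z₂)‖ ≤
      ‖z₁‖ + ‖z₂‖ + (1 + 1 / D) * (‖z₁‖ * ‖z₂‖) := by
    refine (norm_add_le _ _).trans ?_
    refine add_le_add (norm_add_le _ _) ?_
    rw [norm_mul, norm_mul]
    exact mul_le_mul_of_nonneg_right hinv hrr
  calc ‖zz q (α₁ * α₂) (β₁ * β₂)‖ * (1 - ‖z₁‖ * ‖z₂‖ / D)
      ≤ ‖zz q (α₁ * α₂) (β₁ * β₂)‖ * ‖1 + z₁ * z₂ / (q - 1)‖ :=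
        mul_le_mul_of_nonneg_left hlow (norm_nonneg _)
    _ = ‖z₁ + z₂ + (1 - 1 / (q - 1)) * (z₁ * z₂)‖ := hn
    _ ≤ _ := hup

end Pool.Agent.SPG
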