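import Mathlib
import Pool.Agent.SPG.Stmts

/-!
# Series composition of good pairs
-/

set_option autoImplicit false

namespace Pool.Agent.SPG

namespace CSER

/-- A good pair satisfies the first three clauses of the bound. -/
theorem bd3_of_good {D : ℕ} {q : ℂ} {a b : ℕ} {α β : ℂ} (h : Good D q a b α β)
    (ha : a ≤ D) (hb : b ≤ D) : Bd3 D a b ‖zz q α β‖ := by
  obtain ⟨hC, h2⟩ := h
  rcases h2 ha hb with h0 | h1
  · have hz : zz q α β = -1 := by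
      rw [h0, zero_add] at hC
      unfold zz
      rw [h0, zero_add, zero_sub, mul_neg, neg_div, div_self hC]
    rw [hz, norm_neg, norm_one]
    exact ⟨by norm_num, by norm_num, fun _ => le_refl _⟩
  · exact h1.1

/-- The sum form is multiplicative. -/
theorem C_mul (q α₁ β₁ α₂ β₂ : ℂ) :
    (α₁ * α₂ + (q - 1) * (β₁ * β₂)) +
      (q - 1) * (α₁ * β₂ + β₁ * α₂ + (q - 2) * (β₁ * β₂)) =
    (α₁ + (q - 1) * β₁) * (α₂ + (q - 1) * β₂) := by
  ring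

/-- The difference is multiplicative. -/
theorem d_mul (q α₁ β₁ α₂ β₂ : ℂ) :
    (α₁ * α₂ + (q - 1) * (β₁ * β₂)) -
      (α₁ * β₂ + β₁ * α₂ + (q - 2) * (β₁ * β₂)) =
    (α₁ - β₁) * (α₂ - β₂) := by
  ring

/-- The transmissivity of a series composition. -/
theorem zz_mul (q α₁ β₁ α₂ β₂ : ℂ) (h1 : q - 1 ≠ 0) :
    zz q (α₁ * α₂ + (q - 1) * (β₁ * β₂)) (α₁ * β₂ + β₁ * α₂ + (q - 2) * (β₁ * β₂)) =
      zz q α₁ β₁ * zz q α₂ β₂ / (q - 1) := by
  unfold zz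
  rw [C_mul, d_mul, div_mul_div_comm, div_div,
    mul_comm ((α₁ + (q - 1) * β₁) * (α₂ + (q - 1) * β₂)) (q - 1),
    show (q - 1) * (α₁ - β₁) * ((q - 1) * (α₂ - β₂)) =
      (q - 1) * ((q - 1) * ((α₁ - β₁) * (α₂ - β₂))) by ring,
    mul_div_mul_left _ _ h1]

end CSER

open CSER in
theorem t_CSER (hR : Stmt_RSER) : Stmt_CSER := by
  intro D q a b b₁ a₂ α₁ β₁ α₂ β₂ _ hD ha hb hb₁ ha₂ hsum hG₁ hG₂
  have hD1 : 1 ≤ D := by omega
  have hDr : (1 : ℝ) ≤ D := by exact_mod_cast hD1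
  have hDpos : (0 : ℝ) < D := by linarith
  have hnpos : 0 < ‖q - 1‖ := by linarith
  have hq1 : q - 1 ≠ 0 := norm_pos_iff.mp hnpos
  refine ⟨?_, ?_⟩
  · rw [C_mul]
    exact mul_ne_zero hG₁.1 hG₂.1
  · intro haD hbD
    right
    have hr₁ := bd3_of_good hG₁ haD (by omega : b₁ ≤ D)
    have hr₂ := bd3_of_good hG₂ (by omega : a₂ ≤ D) hbD
    refine hR D a b b₁ a₂ _ _ _ ha hb hb₁ ha₂ haD hbD hsum hr₁ hr₂ (norm_nonneg _) ?_
    rw [zz_mul q α₁ β₁ α₂ β₂ hq1, norm_div, norm_mul]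
    exact div_le_div_of_nonneg_left (mul_nonneg (norm_nonneg _) (norm_nonneg _)) hDpos hD.le

end Pool.Agent.SPG
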