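import Mathlib
import Pool.Agent.SPG.Stmts

/-!
# A graph with minimum positive degree at least three has a `K₄` minor
-/

set_option autoImplicit false

open List

namespace Pool.Agent.SPG

namespace DIR

variable {V : Type}

/-- The vertex set of a nonempty chain is connected. -/
lemma conn_of_chain (G : SimpleGraph V) (l : List V) (hne : l ≠ []) (hc : l.IsChain G.Adj) :
    (G.induce {v | v ∈ l}).Connected := by
  have h := (SimpleGraph.Walk.ofSupport l hne hc).connected_induce_support
  rw [SimpleGraph.Walk.support_ofSupport] at h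
  exact h

/-- There is a longest path. -/
lemma exists_longest [Fintype V] (G : SimpleGraph V) : ∃ N : ℕ,
    (∃ l : List V, l.IsChain G.Adj ∧ l.Nodup ∧ l.length = N) ∧
    ∀ l : List V, l.IsChain G.Adj → l.Nodup → l.length ≤ N := by
  classical
  set S : Set ℕ := {n | ∃ l : List V, l.IsChain G.Adj ∧ l.Nodup ∧ l.length = n} with hS
  have hne : S.Nonempty := ⟨0, [], List.IsChain.nil, List.nodup_nil, rfl⟩
  have hb : BddAbove S := by
    refine ⟨Fintype.card V, ?_⟩
    rintro n ⟨l, -, hn, rfl⟩
    exact hn.length_le_card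
  refine ⟨sSup S, Nat.sSup_mem hne hb, ?_⟩
  intro l hc hn
  exact le_csSup hb ⟨l, hc, hn, rfl⟩

/-- `(P, Q)` is a cut of a longest path at a chord from its first vertex. -/
def Cut (G : SimpleGraph V) (N : ℕ) (P Q : List V) : Prop :=
  (P ++ Q).IsChain G.Adj ∧ (P ++ Q).Nodup ∧ (P ++ Q).length = N ∧ 2 ≤ P.length ∧
    ∃ x ∈ P.head?, ∃ y ∈ Q.head?, G.Adj x y

/-- The first vertex of a longest path is adjacent only to vertices of the path. -/
lemma mem_of_adj (G : SimpleGraph V) (N : ℕ)
    (hmax : ∀ l : List V, l.IsChain G.Adj → l.Nodup → l.length ≤ N)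
    (x : V) (l : List V) (hc : (x :: l).IsChain G.Adj) (hn : (x :: l).Nodup)
    (hl : (x :: l).length = N) (z : V) (hz : G.Adj x z) : z ∈ l := by
  by_contra hzl
  have hzx : z ≠ x := hz.ne'
  have h1 : (z :: x :: l).IsChain G.Adj := List.isChain_cons_cons.2 ⟨hz.symm, hc⟩
  have h2 : (z :: x :: l).Nodup := by
    rw [List.nodup_cons]
    refine ⟨?_, hn⟩
    intro h
    rcases List.mem_cons.1 h with h | h
    · exact hzx h
    · exact hzl h
  have h3 := hmax _ h1 h2
  simp only [List.length_cons] at h3 hl
  omega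

/-- The key step. -/
lemma key [Fintype V] [DecidableEq V] (G : SimpleGraph V) [DecidableRel G.Adj]
    (hdeg : ∀ x y, G.Adj x y → 3 ≤ G.degree x) (N i : ℕ)
    (hmax : ∀ l : List V, l.IsChain G.Adj → l.Nodup → l.length ≤ N)
    (hmin : ∀ P Q, Cut G N P Q → i ≤ P.length)
    (x x1 : V) (P2 : List V) (y : V) (R : List V)
    (hc : Cut G N (x :: x1 :: P2) (y :: R)) (hi : (x :: x1 :: P2).length = i) :
    ∃ z ∈ R, G.Adj x z := by
  by_contra hcon
  push Not at hcon
  obtain ⟨hch, hnd, hlen, -, x', hx', y', hy', hxy⟩ := hc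
  have hsub : G.neighborFinset x ⊆ {x1, y} := by
    intro z hz
    rw [SimpleGraph.mem_neighborFinset] at hz
    have hm : z ∈ x1 :: P2 ++ y :: R :=
      mem_of_adj G N hmax x (x1 :: P2 ++ y :: R) hch hnd hlen z hz
    rw [List.mem_append, List.mem_cons, List.mem_cons] at hm
    rw [Finset.mem_insert, Finset.mem_singleton]
    rcases hm with (h | h) | (h | h)
    · exact Or.inl h
    · exfalso
      obtain ⟨s, t, rfl⟩ := List.append_of_mem h
      have hcut : Cut G N (x :: x1 :: s) (z :: t ++ y :: R) := by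
        have he : (x :: x1 :: s) ++ (z :: t ++ y :: R) = x :: x1 :: (s ++ z :: t) ++ y :: R := by
          simp
        refine ⟨?_, ?_, ?_, ?_, x, ?_, z, ?_, hz⟩
        · rw [he]; exact hch
        · rw [he]; exact hnd
        · rw [he]; exact hlen
        · simp
        · simp
        · simp
      have h5 := hmin _ _ hcut
      rw [← hi] at h5
      simp only [List.length_cons, List.length_append] at h5
      omega
    · exact Or.inr h
    · exact absurd hz (hcon z h)
  have hcard := Finset.card_le_card hsub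
  rw [SimpleGraph.card_neighborFinset_eq_degree] at hcard
  have hx1 : G.Adj x x1 := by
    have := hch
    simp only [List.cons_append, List.isChain_cons_cons] at this
    exact this.1
  have h3 := hdeg x x1 hx1
  have h2 : ({x1, y} : Finset V).card ≤ 2 := Finset.card_le_two
  omega

/-- A longest path has a cut. -/
lemma exists_cut [Fintype V] [DecidableEq V] (G : SimpleGraph V) [DecidableRel G.Adj]
    (hdeg : ∀ x y, G.Adj x y → 3 ≤ G.degree x) (N : ℕ) (hN : 2 ≤ N)
    (hmax : ∀ l : List V, l.IsChain G.Adj → l.Nodup → l.length ≤ N)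
    (l : List V) (hc : l.IsChain G.Adj) (hn : l.Nodup) (hl : l.length = N) :
    ∃ P Q, Cut G N P Q := by
  match l, hc, hn, hl with
  | [], _, _, hl => simp at hl; omega
  | [_], _, _, hl => simp at hl; omega
  | x :: x1 :: L, hc, hn, hl =>
    have hx1 : G.Adj x x1 := (List.isChain_cons_cons.1 hc).1
    have h3 := hdeg x x1 hx1
    have hex : ∃ z ∈ L, G.Adj x z := by
      by_contra hcon
      push Not at hcon
      have hsub : G.neighborFinset x ⊆ {x1} := by
        intro z hz
        rw [SimpleGraph.mem_neighborFinset] at hz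
        have hm : z ∈ x1 :: L := mem_of_adj G N hmax x (x1 :: L) hc hn hl z hz
        rw [Finset.mem_singleton]
        rcases List.mem_cons.1 hm with h | h
        · exact h
        · exact absurd hz (hcon z h)
      have hcard := Finset.card_le_card hsub
      rw [SimpleGraph.card_neighborFinset_eq_degree, Finset.card_singleton] at hcard
      omega
    obtain ⟨z, hz, hxz⟩ := hex
    obtain ⟨s, t, rfl⟩ := List.append_of_mem hz
    refine ⟨x :: x1 :: s, z :: t, ?_, ?_, ?_, ?_, x, ?_, z, ?_, hxz⟩
    · simpa using hc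
    · simpa using hn
    · simpa using hl
    · simp
    · simp
    · simp

/-- Reversing the first part of a cut gives a cut. -/
lemma cut_reverse (G : SimpleGraph V) (N : ℕ) (P Q : List V) (h : Cut G N P Q) :
    Cut G N P.reverse Q := by
  obtain ⟨hch, hnd, hlen, h2, x, hx, y, hy, hxy⟩ := h
  have hP : P ≠ [] := by
    rintro rfl
    simp at h2
  have hQ : Q ≠ [] := by
    rintro rfl
    simp at hy
  have hperm : (P.reverse ++ Q).Perm (P ++ Q) := (List.reverse_perm P).append_right Q
  rw [List.isChain_append] at hch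
  obtain ⟨hcP, hcQ, hPQ⟩ := hch
  refine ⟨?_, ?_, ?_, ?_, P.getLast hP, ?_, y, hy, ?_⟩
  · rw [List.isChain_append]
    refine ⟨?_, hcQ, ?_⟩
    · rw [List.isChain_reverse]
      exact hcP.imp (fun a b hab => hab.symm)
    · intro a ha b hb
      rw [List.getLast?_reverse] at ha
      rw [Option.mem_def] at ha hb hx hy
      rw [ha] at hx
      rw [hb] at hy
      obtain rfl := Option.some.inj hx
      obtain rfl := Option.some.inj hy
      exact hxy
  · exact hperm.nodup_iff.2 hnd
  · rw [hperm.length_eq]; exact hlen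
  · rw [List.length_reverse]; exact h2
  · rw [List.head?_reverse]
    exact List.getLast?_eq_some_getLast hP
  · exact hPQ _ (List.getLast?_eq_some_getLast hP) y hy

end DIR

open DIR in
/-- A graph with an edge in which every vertex of positive degree has degree at least three has a
`K₄` minor. -/
theorem t_DIR : Stmt_DIR := by
  classical
  intro V _ _ G _ ⟨u, v, huv⟩ hdeg
  obtain ⟨N, ⟨l, hlc, hln, hll⟩, hmax⟩ := exists_longest G
  have hN : 2 ≤ N := by
    have h := hmax [u, v] (List.isChain_pair.2 huv) (by simp [huv.ne])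
    simpa using h
  have hex : ∃ i, ∃ P Q, Cut G N P Q ∧ P.length = i := by
    obtain ⟨P, Q, h⟩ := exists_cut G hdeg N hN hmax l hlc hln hll
    exact ⟨_, P, Q, h, rfl⟩
  set i := Nat.find hex with hi
  obtain ⟨P, Q, hcut, hPi⟩ := Nat.find_spec hex
  rw [← hi] at hPi
  have hmin : ∀ P Q, Cut G N P Q → i ≤ P.length := fun P' Q' h' =>
    Nat.find_min' hex ⟨P', Q', h', rfl⟩
  -- shapes
  obtain ⟨y, R, rfl⟩ : ∃ y R, Q = y :: R := by
    cases Q with
    | nil =>
      obtain ⟨-, -, -, -, x, -, y, hy, -⟩ := hcut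
      simp at hy
    | cons y R => exact ⟨y, R, rfl⟩
  have hmainA : ∀ P, Cut G N P (y :: R) → P.length = i → ∃ x ∈ P.head?, ∃ z ∈ R, G.Adj x z := by
    intro P hP hlen
    match P, hP, hlen with
    | [], hP, _ => exact absurd hP.2.2.2.1 (by simp)
    | [_], hP, _ => exact absurd hP.2.2.2.1 (by simp)
    | x :: x1 :: P2, hP, hlen =>
      obtain ⟨z, hz, hxz⟩ := key G hdeg N i hmax hmin x x1 P2 y R hP hlen
      exact ⟨x, by simp, z, hz, hxz⟩
  obtain ⟨x, hx, z, hz, hxz⟩ := hmainA P hcut hPi
  obtain ⟨w, hw, z', hz', hwz'⟩ := hmainA P.reverse (cut_reverse G N P _ hcut)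
    (by rw [List.length_reverse]; exact hPi)
  obtain ⟨hch, hnd, hlen, h2, x', hx', y', hy', hxy⟩ := hcut
  have hxx' : x' = x := by
    rw [Option.mem_def] at hx hx'
    rw [hx] at hx'
    exact (Option.some.inj hx').symm
  have hyy' : y' = y := by
    simpa using hy'.symm
  subst hxx' hyy'
  -- split `P` as `S ++ [w]`
  rw [List.head?_reverse] at hw
  obtain ⟨S, rfl⟩ : ∃ S, P = S ++ [w] := by
    have hne : P ≠ [] := by
      rintro rfl
      simp at h2
    refine ⟨P.dropLast, ?_⟩
    have h5 : P.getLast hne = w := by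
      rw [Option.mem_def, List.getLast?_eq_some_getLast hne] at hw
      exact Option.some.inj hw
    rw [← h5]
    exact (List.dropLast_append_getLast hne).symm
  have hSne : S ≠ [] := by
    rintro rfl
    simp at h2
  have hRne : R ≠ [] := by
    rintro rfl
    simp at hz
  have hxS : x' ∈ S := by
    cases S with
    | nil => exact absurd rfl hSne
    | cons a S' =>
      simp only [List.cons_append, List.head?_cons, Option.mem_def, Option.some.injEq] at hx
      rw [hx]
      exact List.mem_cons_self
  obtain ⟨hcP, hcQ, hPQ⟩ := List.isChain_append.1 hch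
  obtain ⟨hcS, -, hSw⟩ := List.isChain_append.1 hcP
  have hcR : R.IsChain G.Adj := hcQ.tail
  have hwy : G.Adj w y' := hPQ w (by simp) y' (by simp)
  have hlast : G.Adj (S.getLast hSne) w :=
    hSw _ (List.getLast?_eq_some_getLast hSne) w (by simp)
  have hyR : G.Adj y' (R.head hRne) := by
    obtain ⟨r, R', rfl⟩ := List.exists_cons_of_ne_nil hRne
    exact (List.isChain_cons_cons.1 hcQ).1
  -- disjointness
  rw [List.append_assoc, List.nodup_append'] at hnd
  obtain ⟨hS, hrest, hdisS⟩ := hnd
  rw [List.singleton_append, List.nodup_cons] at hrest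
  obtain ⟨hwQ, hQ⟩ := hrest
  rw [List.nodup_cons] at hQ
  obtain ⟨hyR', hR⟩ := hQ
  have hwS : w ∉ S := fun h => hdisS h (by simp)
  have hyS : y' ∉ S := fun h => hdisS h (by simp)
  have hRS : ∀ a ∈ S, a ∉ R := fun a h h' => hdisS h (by simp [h'])
  have hwy' : w ≠ y' := fun h => hwQ (by simp [h])
  have hwR : w ∉ R := fun h => hwQ (by simp [h])
  refine ⟨![{a | a ∈ S}, {w}, {y'}, {a | a ∈ R}], ?_, ?_, ?_⟩
  · intro j
    fin_cases j
    · exact conn_of_chain G S hSne hcS
    · simp
    · simp
    · exact conn_of_chain G R hRne hcR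
  · have key2 : ∀ j k : Fin 4, j < k → Disjoint
        ((![{a | a ∈ S}, {w}, {y'}, {a | a ∈ R}] : Fin 4 → Set V) j)
        ((![{a | a ∈ S}, {w}, {y'}, {a | a ∈ R}] : Fin 4 → Set V) k) := by
      intro j k hjk
      rw [Set.disjoint_left]
      fin_cases j <;> fin_cases k <;>
        first
          | exact absurd hjk (by decide)
          | skip
      · rintro a ha rfl
        exact hwS ha
      · rintro a ha rfl
        exact hyS ha
      · intro a ha ha'
        exact hRS a ha ha'
      · rintro a rfl ha'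
        exact hwy' ha'
      · rintro a rfl ha'
        exact hwR ha'
      · rintro a rfl ha'
        exact hyR' ha'
    intro j k hjk
    rcases lt_or_gt_of_ne hjk with h | h
    · exact key2 j k h
    · exact (key2 k j h).symm
  · have key3 : ∀ j k : Fin 4, j < k → ∃ a ∈
        ((![{a | a ∈ S}, {w}, {y'}, {a | a ∈ R}] : Fin 4 → Set V) j), ∃ b ∈
        ((![{a | a ∈ S}, {w}, {y'}, {a | a ∈ R}] : Fin 4 → Set V) k), G.Adj a b := by
      intro j k hjk
      fin_cases j <;> fin_cases k <;>
        first
          | exact absurd hjk (by decide)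
          | skip
      · exact ⟨S.getLast hSne, List.getLast_mem hSne, w, rfl, hlast⟩
      · exact ⟨x', hxS, y', rfl, hxy⟩
      · exact ⟨x', hxS, z, hz, hxz⟩
      · exact ⟨w, rfl, y', rfl, hwy⟩
      · exact ⟨w, rfl, z', hz', hwz'⟩
      · exact ⟨y', rfl, R.head hRne, List.head_mem hRne, hyR⟩
    intro j k hjk
    rcases lt_or_gt_of_ne hjk with h | h
    · exact key3 j k h
    · obtain ⟨a, ha, b, hb, hab⟩ := key3 k j h
      exact ⟨b, hb, a, ha, hab.symm⟩

end Pool.Agent.SPG
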