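import Mathlib
import Pool.Agent.SPG.Stmts

/-!
# Chromatic roots of graphs without a `K₄` minor: the reduction
-/

set_option autoImplicit false

open Polynomial Finset

namespace Pool.Agent.SPG

namespace MAIN

theorem bd3_symm {D a b : ℕ} {r : ℝ} (h : Bd3 D a b r) : Bd3 D b a r := by
  unfold Bd3 at *
  rwa [min_comm b a]

theorem good_symm {D : ℕ} {q : ℂ} {a b : ℕ} {α β : ℂ} (h : Good D q a b α β) :
    Good D q b a α β := by
  refine ⟨h.1, fun hb ha => ?_⟩
  rcases h.2 ha hb with h1 | h1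
  · exact Or.inl h1
  · refine Or.inr ⟨bd3_symm h1.1, ?_⟩
    rw [min_comm b a, max_comm b a]
    exact h1.2

theorem hasK4_mono {V : Type} {G H : SimpleGraph V} (h : G ≤ H) (hG : HasK4Minor G) :
    HasK4Minor H := by
  obtain ⟨B, hc, hd, ha⟩ := hG
  refine ⟨B, fun i => ?_, hd, fun i j hij => ?_⟩
  · refine (hc i).mono ?_
    intro x y hxy
    exact h hxy
  · obtain ⟨x, hx, y, hy, hxy⟩ := ha i j hij
    exact ⟨x, hx, y, hy, h hxy⟩

theorem gr_mono {V : Type} {E F : Finset (Sym2 V)} (h : E ⊆ F) : gr E ≤ gr F := by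
  intro x y hxy
  unfold gr at *
  rw [SimpleGraph.fromEdgeSet_adj] at *
  exact ⟨h hxy.1, hxy.2⟩

section

variable {V : Type} [Fintype V] [DecidableEq V]

theorem gr_adj {E : Finset (Sym2 V)} {x y : V} : (gr E).Adj x y ↔ s(x, y) ∈ E ∧ x ≠ y := by
  unfold gr
  rw [SimpleGraph.fromEdgeSet_adj]
  simp

/-- Some vertex lies on one or two edges. -/
theorem exists_small (hDIR : Stmt_DIR) {E : Finset (Sym2 V)} (hne : E.Nonempty)
    (hdiag : ∀ e ∈ E, ¬ e.IsDiag) (hK : ¬ HasK4Minor (gr E)) :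
    ∃ w, (E.filter (fun e => w ∈ e)).Nonempty ∧ (E.filter (fun e => w ∈ e)).card ≤ 2 := by
  classical
  by_contra hcon
  push Not at hcon
  apply hK
  let _ : DecidableRel (gr E).Adj := Classical.decRel _
  refine hDIR V (gr E) ?_ ?_
  · obtain ⟨e, he⟩ := hne
    induction e with
    | _ x y =>
      exact ⟨x, y, gr_adj.2 ⟨he, fun h => hdiag _ he (by rw [h]; exact Sym2.mk_isDiag_iff.2 rfl)⟩⟩
  · intro x y hxy
    have h1 : (E.filter (fun e => x ∈ e)).Nonempty :=
      ⟨s(x, y), mem_filter.2 ⟨(gr_adj.1 hxy).1, Sym2.mem_mk_left x y⟩⟩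
    have h2 := hcon x h1
    rw [← SimpleGraph.card_incidenceFinset_eq_degree]
    refine le_trans h2 (card_le_card ?_)
    intro e he
    rw [mem_filter] at he
    rw [SimpleGraph.mem_incidenceFinset]
    refine ⟨?_, he.2⟩
    unfold gr
    rw [SimpleGraph.edgeSet_fromEdgeSet]
    exact ⟨he.1, hdiag e he.1⟩

theorem step_pend (hPEND : Stmt_PEND) {D : ℕ} {q : ℂ} {E : Finset (Sym2 V)}
    {A B : Sym2 V → ℂ[X]} {w s : V} (hws : w ≠ s) (he : s(w, s) ∈ E)
    (hE : ∀ e ∈ E, w ∈ e → e = s(w, s)) {x y : ℕ}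
    (hg : Good D q x y ((A s(w, s)).eval q) ((B s(w, s)).eval q))
    (ih : ∃ (F : ℂ[X]) (j : ℕ), F.eval q ≠ 0 ∧
      ∀ n : ℕ, (n : ℂ) ^ j * Z (E.erase s(w, s)) A B n = F.eval (n : ℂ)) :
    ∃ (F : ℂ[X]) (j : ℕ), F.eval q ≠ 0 ∧ ∀ n : ℕ, (n : ℂ) ^ j * Z E A B n = F.eval (n : ℂ) := by
  obtain ⟨F, j, hF, hn⟩ := ih
  refine ⟨(A s(w, s) + (X - 1) * B s(w, s)) * F, j + 1, ?_, ?_⟩
  · rw [eval_mul]
    refine mul_ne_zero ?_ hF
    simpa using hg.1
  · intro n
    have h1 := hPEND V E A B w s hws he hE n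
    have h2 := hn n
    rw [eval_mul, ← h2, pow_succ, mul_assoc, h1]
    simp only [eval_add, eval_mul, eval_sub, eval_X, eval_one]
    ring

theorem sum_split {M : Type} [AddCommMonoid M] {E : Finset (Sym2 V)} {e₁ e₂ f : Sym2 V}
    (h₁ : e₁ ∈ E) (h₂ : e₂ ∈ E) (h12 : e₁ ≠ e₂) (hf1 : f ≠ e₁) (hf2 : f ≠ e₂) (g : Sym2 V → M) :
    ∑ e ∈ E, g e = g e₁ + g e₂ + (if f ∈ E then g f else 0) +
      ∑ e ∈ ((E.erase e₁).erase e₂).erase f, g e := by
  rw [← add_sum_erase E g h₁,
    ← add_sum_erase (E.erase e₁) g (mem_erase.2 ⟨h12.symm, h₂⟩)]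
  by_cases hf : f ∈ E
  · rw [if_pos hf, ← add_sum_erase ((E.erase e₁).erase e₂) g
      (mem_erase.2 ⟨hf2, mem_erase.2 ⟨hf1, hf⟩⟩)]
    simp only [add_assoc]
  · rw [if_neg hf, erase_eq_of_notMem (fun h => hf (mem_of_mem_erase (mem_of_mem_erase h)))]
    simp only [add_assoc, add_zero]
    try simp

/-- The new degrees. -/
noncomputable def newA (E : Finset (Sym2 V)) (a : V → Sym2 V → ℕ) (w s t : V) (x : V)
    (e : Sym2 V) : ℕ :=
  if e = s(s, t) then
    (if x = s then a s s(w, s) + (if s(s, t) ∈ E then a s s(s, t) else 0)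
      else a t s(w, t) + (if s(s, t) ∈ E then a t s(s, t) else 0))
  else a x e

theorem sum_new {E : Finset (Sym2 V)} {a : V → Sym2 V → ℕ} {w s t : V}
    (hws : w ≠ s) (hwt : w ≠ t) (hst : s ≠ t) (h₁ : s(w, s) ∈ E) (h₂ : s(w, t) ∈ E) (x : V) :
    ∑ e ∈ (insert s(s, t) ((E.erase s(w, s)).erase s(w, t))).filter (fun e => x ∈ e),
      newA E a w s t x e ≤ ∑ e ∈ E.filter (fun e => x ∈ e), a x e := by
  have h12 : s(w, s) ≠ s(w, t) := by
    intro h
    rw [Sym2.eq_iff] at h
    rcases h with h | h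
    · exact hst h.2
    · exact hwt h.1
  have hf1 : s(s, t) ≠ s(w, s) := by
    intro h
    rw [Sym2.eq_iff] at h
    rcases h with h | h
    · exact hws h.1.symm
    · exact hwt h.2.symm
  have hf2 : s(s, t) ≠ s(w, t) := by
    intro h
    rw [Sym2.eq_iff] at h
    rcases h with h | h
    · exact hws h.1.symm
    · exact hst h.1
  rw [sum_filter, sum_filter, sum_split h₁ h₂ h12 hf1 hf2]
  have hins : insert s(s, t) ((E.erase s(w, s)).erase s(w, t)) =
      insert s(s, t) (((E.erase s(w, s)).erase s(w, t)).erase s(s, t)) := by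
    ext e
    simp only [mem_insert, mem_erase]
    tauto
  rw [hins, sum_insert (notMem_erase _ _)]
  have hrest : ∑ e ∈ ((E.erase s(w, s)).erase s(w, t)).erase s(s, t),
      (if x ∈ e then newA E a w s t x e else 0) =
      ∑ e ∈ ((E.erase s(w, s)).erase s(w, t)).erase s(s, t), (if x ∈ e then a x e else 0) := by
    refine sum_congr rfl (fun e he => ?_)
    rw [newA, if_neg (ne_of_mem_erase he)]
  rw [hrest]
  refine Nat.add_le_add_right ?_ _
  by_cases hxs : x = s
  · subst hxs
    have m1 : x ∈ s(w, x) := Sym2.mem_mk_right w x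
    have m3 : x ∈ s(x, t) := Sym2.mem_mk_left x t
    have m2 : x ∉ s(w, t) := by
      rw [Sym2.mem_iff]
      rintro (h | h)
      · exact hws h.symm
      · exact hst h
    rw [if_pos m3, if_pos m1, if_neg m2, newA, if_pos rfl, if_pos rfl]
    by_cases hf : s(x, t) ∈ E
    · rw [if_pos hf, if_pos hf, if_pos m3]
      omega
    · rw [if_neg hf, if_neg hf]
      omega
  · by_cases hxt : x = t
    · subst hxt
      have m2 : x ∈ s(w, x) := Sym2.mem_mk_right w x
      have m3 : x ∈ s(s, x) := Sym2.mem_mk_right s x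
      have m1 : x ∉ s(w, s) := by
        rw [Sym2.mem_iff]
        rintro (h | h)
        · exact hwt h.symm
        · exact hst h.symm
      rw [if_pos m3, if_pos m2, if_neg m1, newA, if_pos rfl, if_neg hxs]
      by_cases hf : s(s, x) ∈ E
      · rw [if_pos hf, if_pos hf, if_pos m3]
        omega
      · rw [if_neg hf, if_neg hf]
        omega
    · have m3 : x ∉ s(s, t) := by
        rw [Sym2.mem_iff]
        rintro (h | h)
        · exact hxs h
        · exact hxt h
      rw [if_neg m3]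
      exact Nat.zero_le _

/-- The state of the reduction. -/
def State (D : ℕ) (q : ℂ) (E : Finset (Sym2 V)) (A B : Sym2 V → ℂ[X]) (a : V → Sym2 V → ℕ) :
    Prop :=
  (∀ e ∈ E, ¬ e.IsDiag) ∧ ¬ HasK4Minor (gr E) ∧
    (∀ x, ∑ e ∈ E.filter (fun e => x ∈ e), a x e ≤ D + 1) ∧
    (∀ e ∈ E, ∀ x ∈ e, 1 ≤ a x e) ∧
    ∀ x y, s(x, y) ∈ E →
      Good D q (a x s(x, y)) (a y s(x, y)) ((A s(x, y)).eval q) ((B s(x, y)).eval q)

theorem two_le_sum {E : Finset (Sym2 V)} {a : V → Sym2 V → ℕ} {x : V} {e₁ e₂ : Sym2 V}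
    (h₁ : e₁ ∈ E) (h₂ : e₂ ∈ E) (h12 : e₁ ≠ e₂) (m₁ : x ∈ e₁) (m₂ : x ∈ e₂) :
    a x e₁ + a x e₂ ≤ ∑ e ∈ E.filter (fun e => x ∈ e), a x e := by
  rw [← sum_pair h12]
  refine sum_le_sum_of_subset ?_
  intro e he
  rw [mem_insert, mem_singleton] at he
  rcases he with rfl | rfl
  · exact mem_filter.2 ⟨h₁, m₁⟩
  · exact mem_filter.2 ⟨h₂, m₂⟩

theorem state_new (hSUP : Stmt_SUP) (hCS : Stmt_CSER) (hCP : Stmt_CPAR) {D : ℕ} {q : ℂ}
    (hq : q ≠ 0) (hD : (D : ℝ) < ‖q - 1‖) {E : Finset (Sym2 V)} {A B : Sym2 V → ℂ[X]}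
    {a : V → Sym2 V → ℕ} (hS : State D q E A B a) {w s t : V} (hws : w ≠ s) (hwt : w ≠ t)
    (hst : s ≠ t) (h₁ : s(w, s) ∈ E) (h₂ : s(w, t) ∈ E)
    (hE : ∀ e ∈ E, w ∈ e → e = s(w, s) ∨ e = s(w, t)) :
    State D q (insert s(s, t) ((E.erase s(w, s)).erase s(w, t)))
      (Function.update A s(s, t) (serA (A s(w, s)) (B s(w, s)) (A s(w, t)) (B s(w, t)) *
        (if s(s, t) ∈ E then A s(s, t) else 1)))
      (Function.update B s(s, t) (serB (A s(w, s)) (B s(w, s)) (A s(w, t)) (B s(w, t)) *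
        (if s(s, t) ∈ E then B s(s, t) else 1))) (newA E a w s t) := by
  obtain ⟨s1, s2, s3, s4, s5⟩ := hS
  have h12 : s(w, s) ≠ s(w, t) := by
    intro h
    rw [Sym2.eq_iff] at h
    rcases h with h | h
    · exact hst h.2
    · exact hwt h.1
  have hf1 : s(s, t) ≠ s(w, s) := by
    intro h
    rw [Sym2.eq_iff] at h
    rcases h with h | h
    · exact hws h.1.symm
    · exact hwt h.2.symm
  have hf2 : s(s, t) ≠ s(w, t) := by
    intro h
    rw [Sym2.eq_iff] at h
    rcases h with h | h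
    · exact hws h.1.symm
    · exact hst h.1
  have mf : ∀ e, e ∈ insert s(s, t) ((E.erase s(w, s)).erase s(w, t)) → e ≠ s(s, t) → e ∈ E := by
    intro e he hne
    rw [mem_insert] at he
    rcases he with he | he
    · exact absurd he hne
    · exact mem_of_mem_erase (mem_of_mem_erase he)
  have gmain : Good D q (newA E a w s t s s(s, t)) (newA E a w s t t s(s, t))
      ((serA (A s(w, s)) (B s(w, s)) (A s(w, t)) (B s(w, t)) *
        (if s(s, t) ∈ E then A s(s, t) else 1)).eval q)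
      ((serB (A s(w, s)) (B s(w, s)) (A s(w, t)) (B s(w, t)) *
        (if s(s, t) ∈ E then B s(s, t) else 1)).eval q) := by
    have e1 : newA E a w s t s s(s, t) =
        a s s(w, s) + (if s(s, t) ∈ E then a s s(s, t) else 0) := by
      rw [newA, if_pos rfl, if_pos rfl]
    have e2 : newA E a w s t t s(s, t) =
        a t s(w, t) + (if s(s, t) ∈ E then a t s(s, t) else 0) := by
      rw [newA, if_pos rfl, if_neg hst.symm]
    rw [e1, e2]
    have g1 := good_symm (s5 w s h₁)
    have g2 := s5 w t h₂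
    have p1 := s4 _ h₁ s (Sym2.mem_mk_right w s)
    have p2 := s4 _ h₁ w (Sym2.mem_mk_left w s)
    have p3 := s4 _ h₂ t (Sym2.mem_mk_right w t)
    have p4 := s4 _ h₂ w (Sym2.mem_mk_left w t)
    have p5 := le_trans (two_le_sum (a := a) h₁ h₂ h12 (Sym2.mem_mk_left w s)
      (Sym2.mem_mk_left w t)) (s3 w)
    have g3 := hCS D q _ _ _ _ _ _ _ _ hq hD p1 p3 p2 p4 p5 g1 g2
    have evA : (serA (A s(w, s)) (B s(w, s)) (A s(w, t)) (B s(w, t))).eval q =
        (A s(w, s)).eval q * (A s(w, t)).eval q +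
          (q - 1) * ((B s(w, s)).eval q * (B s(w, t)).eval q) := by
      simp [serA]
    have evB : (serB (A s(w, s)) (B s(w, s)) (A s(w, t)) (B s(w, t))).eval q =
        (A s(w, s)).eval q * (B s(w, t)).eval q + (B s(w, s)).eval q * (A s(w, t)).eval q +
          (q - 2) * ((B s(w, s)).eval q * (B s(w, t)).eval q) := by
      simp [serB]
    by_cases hf : s(s, t) ∈ E
    · rw [if_pos hf, if_pos hf, if_pos hf, if_pos hf, eval_mul, eval_mul, evA, evB]
      have q1 := le_trans (two_le_sum (a := a) h₁ hf hf1.symm (Sym2.mem_mk_right w s)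
        (Sym2.mem_mk_left s t)) (s3 s)
      have q2 := le_trans (two_le_sum (a := a) h₂ hf hf2.symm (Sym2.mem_mk_right w t)
        (Sym2.mem_mk_right s t)) (s3 t)
      exact hCP D q _ _ _ _ _ _ _ _ hq hD p1 p3 (s4 _ hf s (Sym2.mem_mk_left s t))
        (s4 _ hf t (Sym2.mem_mk_right s t)) q1 q2 g3 (s5 s t hf)
    · rw [if_neg hf, if_neg hf, if_neg hf, if_neg hf, mul_one, mul_one, evA, evB]
      exact g3
  refine ⟨?_, ?_, ?_, ?_, ?_⟩
  · intro e he
    by_cases hef : e = s(s, t)
    · rw [hef, Sym2.mk_isDiag_iff]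
      exact hst
    · exact s1 e (mf e he hef)
  · intro h
    exact s2 (hSUP V E w s t hws hwt hst h₁ h₂ hE h)
  · intro x
    exact le_trans (sum_new hws hwt hst h₁ h₂ x) (s3 x)
  · intro e he x hx
    by_cases hef : e = s(s, t)
    · subst hef
      rw [newA, if_pos rfl]
      by_cases hxs : x = s
      · rw [if_pos hxs]
        exact le_trans (s4 _ h₁ s (Sym2.mem_mk_right w s)) (Nat.le_add_right _ _)
      · rw [if_neg hxs]
        exact le_trans (s4 _ h₂ t (Sym2.mem_mk_right w t)) (Nat.le_add_right _ _)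
    · rw [newA, if_neg hef]
      exact s4 e (mf e he hef) x hx
  · intro x y hxy
    by_cases hef : s(x, y) = s(s, t)
    · rw [hef, Function.update_self, Function.update_self]
      rw [Sym2.eq_iff] at hef
      rcases hef with ⟨rfl, rfl⟩ | ⟨rfl, rfl⟩
      · exact gmain
      · exact good_symm gmain
    · rw [Function.update_of_ne hef, Function.update_of_ne hef, newA, if_neg hef, newA,
        if_neg hef]
      exact s5 x y (mf _ hxy hef)

theorem main_ind (hDIR : Stmt_DIR) (hSUP : Stmt_SUP) (hPEND : Stmt_PEND) (hSRED : Stmt_SRED)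
    (hCS : Stmt_CSER) (hCP : Stmt_CPAR) {D : ℕ} {q : ℂ} (hq : q ≠ 0) (hD : (D : ℝ) < ‖q - 1‖) :
    ∀ (k : ℕ) (E : Finset (Sym2 V)) (A B : Sym2 V → ℂ[X]) (a : V → Sym2 V → ℕ), E.card ≤ k →
      State D q E A B a → ∃ (F : ℂ[X]) (j : ℕ), F.eval q ≠ 0 ∧
        ∀ n : ℕ, (n : ℂ) ^ j * Z E A B n = F.eval (n : ℂ) := by
  intro k
  induction k with
  | zero =>
    intro E A B a hk _
    have hE : E = ∅ := card_eq_zero.1 (Nat.le_zero.1 hk)
    subst hE
    refine ⟨X ^ Fintype.card V, 0, ?_, ?_⟩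
    · rw [eval_pow, eval_X]
      exact pow_ne_zero _ hq
    · intro n
      simp [Z]
  | succ k ih =>
    intro E A B a hk hS
    rcases E.eq_empty_or_nonempty with hE | hne
    · exact ih E A B a (by rw [hE]; simp) hS
    obtain ⟨w, hw1, hw2⟩ := exists_small hDIR hne hS.1 hS.2.1
    have hcard : (E.filter (fun e => w ∈ e)).card = 1 ∨ (E.filter (fun e => w ∈ e)).card = 2 := by
      have := card_pos.2 hw1
      omega
    rcases hcard with hc | hc
    · obtain ⟨e, he⟩ := card_eq_one.1 hc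
      have hm : e ∈ E.filter (fun e => w ∈ e) := by
        rw [he]
        exact mem_singleton_self e
      rw [mem_filter] at hm
      obtain ⟨hmE, hmw⟩ := hm
      obtain ⟨s, rfl⟩ := hmw
      have hws : w ≠ s := by
        intro h
        exact hS.1 _ hmE (by rw [h]; exact Sym2.mk_isDiag_iff.2 rfl)
      have hall : ∀ e ∈ E, w ∈ e → e = s(w, s) := by
        intro e' he' hwe
        have : e' ∈ E.filter (fun e => w ∈ e) := mem_filter.2 ⟨he', hwe⟩
        rw [he] at this
        exact mem_singleton.1 this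
      refine step_pend hPEND hws hmE hall (hS.2.2.2.2 w s hmE) ?_
      refine ih (E.erase s(w, s)) A B a ?_ ?_
      · rw [card_erase_of_mem hmE]
        omega
      · obtain ⟨s1, s2, s3, s4, s5⟩ := hS
        refine ⟨fun e he => s1 e (mem_of_mem_erase he), ?_, ?_, ?_, ?_⟩
        · intro h
          exact s2 (hasK4_mono (gr_mono (erase_subset _ _)) h)
        · intro x
          refine le_trans (sum_le_sum_of_subset ?_) (s3 x)
          exact filter_subset_filter _ (erase_subset _ _)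
        · intro e he
          exact s4 e (mem_of_mem_erase he)
        · intro x y hxy
          exact s5 x y (mem_of_mem_erase hxy)
    · obtain ⟨e₁, e₂, h12, he⟩ := card_eq_two.1 hc
      have hm₁ : e₁ ∈ E.filter (fun e => w ∈ e) := by
        rw [he]
        simp
      have hm₂ : e₂ ∈ E.filter (fun e => w ∈ e) := by
        rw [he]
        simp
      rw [mem_filter] at hm₁ hm₂
      obtain ⟨hE₁, hw₁⟩ := hm₁
      obtain ⟨hE₂, hw₂⟩ := hm₂
      obtain ⟨s, rfl⟩ := hw₁
      obtain ⟨t, rfl⟩ := hw₂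
      have hws : w ≠ s := by
        intro h
        exact hS.1 _ hE₁ (by rw [h]; exact Sym2.mk_isDiag_iff.2 rfl)
      have hwt : w ≠ t := by
        intro h
        exact hS.1 _ hE₂ (by rw [h]; exact Sym2.mk_isDiag_iff.2 rfl)
      have hst : s ≠ t := by
        intro h
        exact h12 (by rw [h])
      have hall : ∀ e ∈ E, w ∈ e → e = s(w, s) ∨ e = s(w, t) := by
        intro e' he' hwe
        have : e' ∈ E.filter (fun e => w ∈ e) := mem_filter.2 ⟨he', hwe⟩
        rw [he, mem_insert, mem_singleton] at this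
        exact this
      have hcd : (insert s(s, t) ((E.erase s(w, s)).erase s(w, t))).card ≤ k := by
        refine le_trans (card_insert_le _ _) ?_
        rw [card_erase_of_mem (mem_erase.2 ⟨h12.symm, hE₂⟩), card_erase_of_mem hE₁]
        have h2 : 2 ≤ E.card := by
          rw [← hc]
          exact card_le_card (filter_subset _ _)
        omega
      obtain ⟨F, j, hF, hn⟩ := ih _ _ _ _ hcd
        (state_new hSUP hCS hCP hq hD hS hws hwt hst hE₁ hE₂ hall)
      refine ⟨F, j + 1, hF, ?_⟩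
      intro n
      rw [← hn n, ← hSRED V E A B w s t hws hwt hst hE₁ hE₂ hall n, pow_succ, mul_assoc]

/-- The graph polynomial. -/
theorem main_graph (hDIR : Stmt_DIR) (hSUP : Stmt_SUP) (hPEND : Stmt_PEND) (hSRED : Stmt_SRED)
    (hCS : Stmt_CSER) (hCP : Stmt_CPAR) (G : SimpleGraph V) [DecidableRel G.Adj]
    (hG : ¬ HasK4Minor G) (p : ℂ[X])
    (hp : ∀ n : ℕ, p.eval (n : ℂ) = ((Nat.card (G.Coloring (Fin n)) : ℕ) : ℂ)) (q : ℂ)
    (hpq : p.eval q = 0) : q = 0 ∨ ‖q - 1‖ ≤ (G.maxDegree : ℝ) - 1 := by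
  classical
  by_contra hcon
  push Not at hcon
  obtain ⟨hq, hr⟩ := hcon
  have hZ : ∀ n : ℕ, p.eval (n : ℂ) = Z G.edgeFinset (fun _ => 0) (fun _ => 1) n := by
    intro n
    rw [hp n, Z]
    have h1 : ∀ σ : V → Fin n, (∏ e ∈ G.edgeFinset,
        if (e.map σ).IsDiag then ((fun _ => 0 : Sym2 V → ℂ[X]) e).eval (n : ℂ)
          else ((fun _ => 1 : Sym2 V → ℂ[X]) e).eval (n : ℂ)) =
        if (∀ x y, G.Adj x y → σ x ≠ σ y) then 1 else 0 := by
      intro σ
      by_cases h : ∀ x y, G.Adj x y → σ x ≠ σ y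
      · rw [if_pos h]
        refine prod_eq_one ?_
        intro e he
        induction e with
        | _ x y =>
          rw [SimpleGraph.mem_edgeFinset, SimpleGraph.mem_edgeSet] at he
          rw [if_neg]
          · simp
          · rw [Sym2.map_mk, Sym2.mk_isDiag_iff]
            exact h x y he
      · rw [if_neg h]
        push Not at h
        obtain ⟨x, y, hxy, hσ⟩ := h
        refine prod_eq_zero (i := s(x, y)) (SimpleGraph.mem_edgeFinset.2 hxy) ?_
        rw [if_pos]
        · simp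
        · rw [Sym2.map_mk, Sym2.mk_isDiag_iff]
          exact hσ
    rw [sum_congr rfl (fun σ _ => h1 σ), sum_boole]
    congr 1
    rw [Nat.card_eq_fintype_card, ← Fintype.card_subtype]
    refine Fintype.card_congr ?_
    exact
      { toFun := fun C => ⟨C, fun x y hxy => C.valid hxy⟩
        invFun := fun σ => SimpleGraph.Coloring.mk σ.1 (fun {x y} hxy => σ.2 x y hxy)
        left_inv := fun C => by ext; rfl
        right_inv := fun σ => rfl }
  rcases Nat.eq_zero_or_pos G.maxDegree with h0 | hpos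
  · have hE : G.edgeFinset = ∅ := by
      rw [eq_empty_iff_forall_notMem]
      intro e he
      induction e with
      | _ x y =>
        rw [SimpleGraph.mem_edgeFinset, SimpleGraph.mem_edgeSet] at he
        have h1 : 0 < G.degree x := (G.degree_pos_iff_exists_adj x).2 ⟨y, he⟩
        have h2 := G.degree_le_maxDegree x
        omega
    have hpX : p = X ^ Fintype.card V := by
      refine Polynomial.eq_of_infinite_eval_eq _ _ ?_
      refine Set.infinite_of_injective_forall_mem (f := fun n : ℕ => (n : ℂ))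
        Nat.cast_injective ?_
      intro n
      rw [Set.mem_setOf_eq, hZ n, hE]
      simp [Z]
    rw [hpX, eval_pow, eval_X] at hpq
    exact hq (eq_zero_of_pow_eq_zero hpq)
  · obtain ⟨D, hD⟩ : ∃ D, G.maxDegree = D + 1 := ⟨G.maxDegree - 1, by omega⟩
    rw [hD] at hr
    push_cast at hr
    have hr' : (D : ℝ) < ‖q - 1‖ := by linarith
    have hq1 : q - 1 ≠ 0 := by
      intro h
      rw [h, norm_zero] at hr'
      exact absurd hr' (not_lt.2 (Nat.cast_nonneg D))
    have hS : State D q G.edgeFinset (fun _ => 0) (fun _ => 1) (fun _ _ => 1) := by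
      refine ⟨?_, ?_, ?_, ?_, ?_⟩
      · intro e he
        rw [SimpleGraph.mem_edgeFinset] at he
        exact G.not_isDiag_of_mem_edgeSet he
      · have : gr G.edgeFinset = G := by
          unfold gr
          rw [SimpleGraph.coe_edgeFinset, SimpleGraph.fromEdgeSet_edgeSet]
        rw [this]
        exact hG
      · intro x
        rw [sum_const, smul_eq_mul, mul_one, ← hD]
        have : (G.edgeFinset.filter (fun e => x ∈ e)) = G.incidenceFinset x := by
          ext e
          rw [mem_filter, SimpleGraph.mem_edgeFinset, SimpleGraph.mem_incidenceFinset]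
          rfl
        rw [this, SimpleGraph.card_incidenceFinset_eq_degree]
        exact G.degree_le_maxDegree x
      · intro e _ x _
        exact le_rfl
      · intro x y _
        refine ⟨?_, fun _ _ => Or.inl ?_⟩
        · simpa using hq1
        · simp
    obtain ⟨F, j, hF, hn⟩ := main_ind hDIR hSUP hPEND hSRED hCS hCP hq hr'
      G.edgeFinset.card G.edgeFinset (fun _ => 0) (fun _ => 1) (fun _ _ => 1) le_rfl hS
    have hpoly : X ^ j * p = F := by
      refine Polynomial.eq_of_infinite_eval_eq _ _ ?_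
      refine Set.infinite_of_injective_forall_mem (f := fun n : ℕ => (n : ℂ))
        Nat.cast_injective ?_
      intro n
      rw [Set.mem_setOf_eq, eval_mul, eval_pow, eval_X, hZ n, hn n]
    apply hF
    rw [← hpoly, eval_mul, hpq, mul_zero]

end

end MAIN

end Pool.Agent.SPG
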