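import Mathlib
import Pool.Agent.SPG.Stmts

/-!
# Module NUM: four numerical inequalities
-/

set_option autoImplicit false

namespace Pool.Agent.SPG

namespace NUM

theorem exp_half : Real.exp (1 / 2) < 1.65 := by
  have h1 : Real.exp (1 / 2) * Real.exp (1 / 2) = Real.exp 1 := by
    rw [← Real.exp_add]; norm_num
  have h2 := Real.exp_one_lt_d9
  have h3 := Real.exp_pos (1 / 2)
  by_contra h
  push Not at h
  nlinarith

theorem Y0_pos (D : ℕ) (hD : 2 ≤ D) : 1 < Y0 D := by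
  have h : (2 : ℝ) ≤ D := by exact_mod_cast hD
  unfold Y0
  rw [lt_div_iff₀ (by positivity)]
  linarith

theorem Y0_le_exp (D : ℕ) : Y0 D ≤ Real.exp (((D : ℝ) - 1) / ((D : ℝ) ^ 2 + 1)) := by
  have h : Y0 D = ((D : ℝ) - 1) / ((D : ℝ) ^ 2 + 1) + 1 := by
    unfold Y0
    have : (D : ℝ) ^ 2 + 1 ≠ 0 := by positivity
    field_simp
    ring
  rw [h]
  exact Real.add_one_le_exp _

/-- powers of `Y0` -/
theorem Y0_pow (D m : ℕ) (c : ℝ) (hD : 2 ≤ D) (h : (m : ℝ) * ((D : ℝ) - 1) ≤ c * ((D : ℝ) ^ 2 + 1)) :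
    Y0 D ^ m ≤ Real.exp c := by
  have h0 := Y0_pos D hD
  calc Y0 D ^ m ≤ (Real.exp (((D : ℝ) - 1) / ((D : ℝ) ^ 2 + 1))) ^ m :=
        pow_le_pow_left₀ (by linarith) (Y0_le_exp D) m
    _ = Real.exp ((m : ℝ) * (((D : ℝ) - 1) / ((D : ℝ) ^ 2 + 1))) := by
        rw [← Real.exp_nat_mul]
    _ ≤ Real.exp c := by
        apply Real.exp_le_exp.2
        rw [← mul_div_assoc, div_le_iff₀ (by positivity)]
        exact h

theorem Yt_one (D : ℕ) (hD : 2 ≤ D) : Yt D 1 = 2 * D / (D + 1) := by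
  have h : (2 : ℝ) ≤ D := by exact_mod_cast hD
  unfold Yt
  field_simp
  ring

theorem Yt_two (D : ℕ) (hD : 2 ≤ D) : Yt D 2 = 3 * D / (D + 2) := by
  have h : (2 : ℝ) ≤ D := by exact_mod_cast hD
  unfold Yt
  field_simp
  ring

theorem Yt_two_div (D : ℕ) (hD : 2 ≤ D) : Yt D (2 / D) = D * (D + 2) / ((D : ℝ) ^ 2 + 2) := by
  have h : (2 : ℝ) ≤ D := by exact_mod_cast hD
  unfold Yt
  field_simp

theorem Yt_one_div (D : ℕ) (hD : 2 ≤ D) : Y0 D = Yt D (1 / D) := by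
  have h : (2 : ℝ) ≤ D := by exact_mod_cast hD
  unfold Yt Y0
  field_simp

theorem ineq6 (D : ℕ) (hD : 2 ≤ D) : Y0 D ≤ Yt D (2 / D) := by
  have h : (2 : ℝ) ≤ D := by exact_mod_cast hD
  rw [Yt_two_div D hD]
  unfold Y0
  rw [div_le_div_iff₀ (by positivity) (by positivity)]
  nlinarith [mul_nonneg (by linarith : (0 : ℝ) ≤ D) (by nlinarith : (0 : ℝ) ≤ (D : ℝ) ^ 2 - D)]

theorem ineq7 (D : ℕ) (hD : 2 ≤ D) : Yt D (2 / D) ≤ Y0 D ^ 2 := by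
  have h : (2 : ℝ) ≤ D := by exact_mod_cast hD
  rw [Yt_two_div D hD]
  unfold Y0
  rw [div_pow, div_le_div_iff₀ (by positivity) (by positivity)]
  have h3 : (0 : ℝ) ≤ D * ((D : ℝ) ^ 3 + D - 2) := by
    apply mul_nonneg (by linarith)
    nlinarith [pow_le_pow_left₀ (by norm_num : (0 : ℝ) ≤ 2) h 3]
  nlinarith

theorem big (D : ℕ) (hD : 20 ≤ D) : Y0 D ^ J D ≤ Yt D 1 ∧ Y0 D ^ D ≤ Yt D 2 ∧
    Y0 D ^ (D / 2 - 1) * Yt D (2 / D) ≤ Yt D 1 := by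
  have h : (20 : ℝ) ≤ D := by exact_mod_cast hD
  have hD2 : 2 ≤ D := by omega
  have e := exp_half
  have hY1 : (1.9 : ℝ) ≤ Yt D 1 := by
    rw [Yt_one D hD2, le_div_iff₀ (by positivity)]
    linarith
  refine ⟨?_, ?_, ?_⟩
  · have hJ : ((J D : ℕ) : ℝ) ≤ (D + 1) / 2 := by
      unfold J
      have : (((D + 1) / 2 : ℕ) : ℝ) ≤ ((D + 1 : ℕ) : ℝ) / 2 := by
        exact_mod_cast Nat.cast_div_le (α := ℝ) (m := D + 1) (n := 2)
      push_cast at this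
      exact this
    have := Y0_pow D (J D) (1 / 2) hD2 (by nlinarith)
    linarith
  · have := Y0_pow D D 1 hD2 (by nlinarith)
    have h2 := Real.exp_one_lt_d9
    refine this.trans ?_
    rw [Yt_two D hD2, le_div_iff₀ (by positivity)]
    nlinarith
  · have hJ : ((D / 2 - 1 : ℕ) : ℝ) ≤ D / 2 := by
      have h1 : ((D / 2 - 1 : ℕ) : ℝ) ≤ ((D / 2 : ℕ) : ℝ) := by exact_mod_cast Nat.sub_le _ _
      have h2 : ((D / 2 : ℕ) : ℝ) ≤ (D : ℝ) / 2 := by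
        exact_mod_cast Nat.cast_div_le (α := ℝ) (m := D) (n := 2)
      exact h1.trans h2
    have h1 := Y0_pow D (D / 2 - 1) (1 / 2) hD2 (by nlinarith)
    have h2 : Yt D (2 / D) ≤ 1.1 := by
      rw [Yt_two_div D hD2, div_le_iff₀ (by positivity)]
      nlinarith
    have h3 : 0 ≤ Yt D (2 / D) := by
      rw [Yt_two_div D hD2]
      positivity
    calc Y0 D ^ (D / 2 - 1) * Yt D (2 / D) ≤ 1.65 * 1.1 := by
          apply mul_le_mul (h1.trans e.le) h2 h3 (by norm_num)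
      _ ≤ 1.9 := by norm_num
      _ ≤ Yt D 1 := hY1

theorem small (D : ℕ) (hD : 2 ≤ D) (h20 : D < 20) : Y0 D ^ J D ≤ Yt D 1 ∧ Y0 D ^ D ≤ Yt D 2 ∧
    Y0 D ^ (D / 2 - 1) * Yt D (2 / D) ≤ Yt D 1 := by
  interval_cases D <;> norm_num [Y0, Yt, J]

end NUM

theorem t_NUM : Stmt_NUM := by
  intro D hD
  have h345 : Y0 D ^ J D ≤ Yt D 1 ∧ Y0 D ^ D ≤ Yt D 2 ∧
      Y0 D ^ (D / 2 - 1) * Yt D (2 / D) ≤ Yt D 1 := by
    rcases Nat.lt_or_ge D 20 with h | h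
    · exact NUM.small D hD h
    · exact NUM.big D h
  exact ⟨NUM.Y0_pos D hD, NUM.Yt_one_div D hD, h345.1, h345.2.1, h345.2.2, NUM.ineq6 D hD,
    NUM.ineq7 D hD⟩

end Pool.Agent.SPG
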