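import Pool.Agent.SPG.Stmts

/-!
# Module PEND: removal of a pendant edge
-/

set_option autoImplicit false

open Polynomial

namespace Pool.Agent.SPG

namespace PEND

/-- Swapping the value at `w` with a free value. -/
def swp {V : Type} [DecidableEq V] {n : ℕ} (w : V) :
    ((V → Fin n) × Fin n) ≃ ((V → Fin n) × Fin n) where
  toFun p := (Function.update p.1 w p.2, p.1 w)
  invFun p := (Function.update p.1 w p.2, p.1 w)
  left_inv p := by simp
  right_inv p := by simp

theorem sum_update {V : Type} [Fintype V] [DecidableEq V] {n : ℕ} (w : V)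
    (f : (V → Fin n) → ℂ) :
    ∑ σ : V → Fin n, ∑ c : Fin n, f (Function.update σ w c) = (n : ℂ) * ∑ σ, f σ := by
  have h : ∑ p : (V → Fin n) × Fin n, f (Function.update p.1 w p.2) =
      ∑ p : (V → Fin n) × Fin n, f p.1 :=
    Fintype.sum_equiv (swp w) _ _ fun p => rfl
  rw [Fintype.sum_prod_type, Fintype.sum_prod_type] at h
  rw [h, Finset.mul_sum]
  apply Finset.sum_congr rfl
  intro σ _
  show ∑ _y : Fin n, f σ = (n : ℂ) * f σ
  rw [Finset.sum_const, Finset.card_univ, Fintype.card_fin, nsmul_eq_mul]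

/-- The weight of an edge. -/
noncomputable def wt {V : Type} (A B : Sym2 V → ℂ[X]) (n : ℕ) (σ : V → Fin n) (e : Sym2 V) : ℂ :=
  if (e.map σ).IsDiag then (A e).eval (n : ℂ) else (B e).eval (n : ℂ)

theorem Z_eq {V : Type} [Fintype V] [DecidableEq V] (E : Finset (Sym2 V))
    (A B : Sym2 V → ℂ[X]) (n : ℕ) : Z E A B n = ∑ σ : V → Fin n, ∏ e ∈ E, wt A B n σ e := rfl

theorem wt_update {V : Type} [DecidableEq V] (A B : Sym2 V → ℂ[X]) (n : ℕ) (σ : V → Fin n)
    (w : V) (c : Fin n) (e : Sym2 V) (he : w ∉ e) :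
    wt A B n (Function.update σ w c) e = wt A B n σ e := by
  have h : e.map (Function.update σ w c) = e.map σ :=
    Sym2.map_congr fun x hx => Function.update_of_ne (fun (h : x = w) => he (h ▸ hx)) _ _
  unfold wt
  rw [h]

theorem wt_edge {V : Type} [DecidableEq V] (A B : Sym2 V → ℂ[X]) (n : ℕ) (σ : V → Fin n)
    (w s : V) (hws : w ≠ s) (c : Fin n) :
    wt A B n (Function.update σ w c) s(w, s) =
      if c = σ s then (A s(w, s)).eval (n : ℂ) else (B s(w, s)).eval (n : ℂ) := by
  unfold wt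
  have h : ((s(w, s)).map (Function.update σ w c)).IsDiag ↔ c = σ s := by
    rw [Sym2.map_mk, Sym2.mk_isDiag_iff]
    simp [Function.update_of_ne hws.symm]
  by_cases hc : c = σ s
  · rw [if_pos (h.mpr hc), if_pos hc]
  · rw [if_neg (fun hh => hc (h.mp hh)), if_neg hc]

theorem sum_ite_eq' {n : ℕ} (d : Fin n) (a b : ℂ) :
    ∑ c : Fin n, (if c = d then a else b) = a + ((n : ℂ) - 1) * b := by
  have h : ∀ c : Fin n, (if c = d then a else b) = (if c = d then a - b else 0) + b := by
    intro c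
    by_cases hc : c = d
    · rw [if_pos hc, if_pos hc]
      ring
    · rw [if_neg hc, if_neg hc]
      ring
  rw [Finset.sum_congr rfl fun c _ => h c, Finset.sum_add_distrib, Finset.sum_ite_eq' Finset.univ d,
    if_pos (Finset.mem_univ d), Finset.sum_const, Finset.card_univ, Fintype.card_fin, nsmul_eq_mul]
  ring

end PEND

/-- Module PEND. -/
theorem t_PEND : Stmt_PEND := by
  intro V _ _ E A B w s hws hE hdeg n
  rw [PEND.Z_eq, PEND.Z_eq, ← PEND.sum_update w, Finset.mul_sum]
  apply Finset.sum_congr rfl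
  intro σ _
  have h1 : ∀ c : Fin n, ∏ e ∈ E, PEND.wt A B n (Function.update σ w c) e =
      (if c = σ s then (A s(w, s)).eval (n : ℂ) else (B s(w, s)).eval (n : ℂ)) *
        ∏ e ∈ E.erase s(w, s), PEND.wt A B n σ e := by
    intro c
    rw [← Finset.mul_prod_erase E _ hE, PEND.wt_edge A B n σ w s hws c]
    congr 1
    apply Finset.prod_congr rfl
    intro e he
    rw [Finset.mem_erase] at he
    exact PEND.wt_update A B n σ w c e fun hw => he.1 (hdeg e he.2 hw)
  rw [Finset.sum_congr rfl fun c _ => h1 c, ← Finset.sum_mul, PEND.sum_ite_eq']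

end Pool.Agent.SPG
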