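import Mathlib
import Pool.Agent.SPG.Stmts

/-!
# Module RPAR: real lemma for the parallel composition
-/

set_option autoImplicit false

namespace Pool.Agent.SPG

namespace RPAR

lemma den_pos (D : ℕ) (r : ℝ) (hr : 0 ≤ r) : 0 < 1 + r / (D : ℝ) := by
  have : 0 ≤ r / (D : ℝ) := div_nonneg hr (Nat.cast_nonneg D)
  linarith

/-- `Yt` is strictly increasing. -/
lemma yt_lt (D : ℕ) (hD : 2 ≤ D) (r s : ℝ) (hs : 0 ≤ s) (hsr : s < r) : Yt D s < Yt D r := by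
  have hr : 0 ≤ r := le_trans hs hsr.le
  have h1 := den_pos D s hs
  have h2 := den_pos D r hr
  have hD' : (2 : ℝ) ≤ (D : ℝ) := by exact_mod_cast hD
  have hD0 : (0 : ℝ) < (D : ℝ) := by linarith
  have hinv : (1 : ℝ) / (D : ℝ) < 1 := by
    rw [div_lt_one hD0]; linarith
  unfold Yt
  rw [div_lt_div_iff₀ h1 h2]
  have e : (1 + r) * (1 + s / (D : ℝ)) - (1 + s) * (1 + r / (D : ℝ))
      = (r - s) * (1 - 1 / (D : ℝ)) := by ring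
  have : 0 < (r - s) * (1 - 1 / (D : ℝ)) := mul_pos (by linarith) (by linarith)
  linarith

lemma le_of_yt_le (D : ℕ) (hD : 2 ≤ D) (r s : ℝ) (hs : 0 ≤ s) (h : Yt D r ≤ Yt D s) : r ≤ s := by
  by_contra hc
  push Not at hc
  exact absurd (yt_lt D hD r s hs hc) (not_lt.mpr h)

/-- The parallel bound in multiplicative form. -/
lemma yt_mul (D : ℕ) (hD : 2 ≤ D) (r₁ r₂ r : ℝ) (h₁ : 0 ≤ r₁) (h₂ : 0 ≤ r₂) (hr : 0 ≤ r)
    (h : r * (1 - r₁ * r₂ / D) ≤ r₁ + r₂ + (1 + 1 / D) * (r₁ * r₂)) :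
    Yt D r ≤ Yt D r₁ * Yt D r₂ := by
  have p0 := den_pos D r hr
  have p1 := den_pos D r₁ h₁
  have p2 := den_pos D r₂ h₂
  have hD' : (2 : ℝ) ≤ (D : ℝ) := by exact_mod_cast hD
  have hD0 : (0 : ℝ) < (D : ℝ) := by linarith
  have hinv : (1 : ℝ) / (D : ℝ) < 1 := by
    rw [div_lt_one hD0]; linarith
  unfold Yt
  rw [div_mul_div_comm, div_le_div_iff₀ p0 (mul_pos p1 p2)]
  have e : (1 + r₁) * (1 + r₂) * (1 + r / (D : ℝ))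
      - (1 + r) * ((1 + r₁ / (D : ℝ)) * (1 + r₂ / (D : ℝ)))
      = (1 - 1 / (D : ℝ)) * (r₁ + r₂ + (1 + 1 / (D : ℝ)) * (r₁ * r₂)
        - r * (1 - r₁ * r₂ / (D : ℝ))) := by
    field_simp
    ring
  have : 0 ≤ (1 - 1 / (D : ℝ)) * (r₁ + r₂ + (1 + 1 / (D : ℝ)) * (r₁ * r₂)
        - r * (1 - r₁ * r₂ / (D : ℝ))) := mul_nonneg (by linarith) (by linarith)
  linarith

/-- Bounds for the last factor. -/
lemma tt_bounds (hNUM : Stmt_NUM) (D : ℕ) (hD : 2 ≤ D) (j : ℕ) :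
    Y0 D ≤ TT D j ∧ TT D j ≤ Y0 D ^ 2 := by
  obtain ⟨h1, h2, h3, h4, h5, h6, h7⟩ := hNUM D hD
  unfold TT
  split_ifs
  · refine ⟨le_rfl, ?_⟩
    nlinarith
  · exact ⟨h6, h7⟩

lemma tt_mono (hNUM : Stmt_NUM) (D : ℕ) (hD : 2 ≤ D) (i j : ℕ) (hij : i ≤ j) :
    TT D i ≤ TT D j := by
  by_cases hj : j ≤ J D
  · have e1 : TT D i = Y0 D := by
      unfold TT; rw [if_pos (le_trans hij hj)]
    rw [e1]
    exact (tt_bounds hNUM D hD j).1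
  · obtain ⟨h1, h2, h3, h4, h5, h6, h7⟩ := hNUM D hD
    have e2 : TT D j = Yt D (2 / D) := by
      unfold TT; rw [if_neg hj]
    rw [e2]
    unfold TT
    split_ifs
    · exact h6
    · exact le_rfl

lemma tt_eq (D j : ℕ) (h : j ≤ J D) : TT D j = Y0 D := by
  unfold TT; rw [if_pos h]

/-- Same sign. -/
lemma same (hNUM : Stmt_NUM) (D : ℕ) (hD : 2 ≤ D) (m₁ e₁ m₂ e₂ : ℕ) (h₁ : 1 ≤ m₁) (h₂ : 1 ≤ m₂)
    (h : m₁ + m₂ + e₁ + e₂ ≤ D) :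
    Y0 D ^ (m₁ - 1) * TT D (e₁ + 1) * (Y0 D ^ (m₂ - 1) * TT D (e₂ + 1))
      ≤ Y0 D ^ (m₁ + m₂ - 1) * TT D (e₁ + e₂ + 1) := by
  have hy : 1 < Y0 D := (hNUM D hD).1
  have hy0 : 0 < Y0 D := by linarith
  obtain ⟨k₁, rfl⟩ : ∃ k, m₁ = k + 1 := ⟨m₁ - 1, by omega⟩
  obtain ⟨k₂, rfl⟩ : ∃ k, m₂ = k + 1 := ⟨m₂ - 1, by omega⟩
  have e0 : k₁ + 1 + (k₂ + 1) - 1 = k₁ + k₂ + 1 := by omega
  rw [e0, Nat.add_sub_cancel, Nat.add_sub_cancel]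
  have hp : (0 : ℝ) ≤ Y0 D ^ (k₁ + k₂ + 1) := by positivity
  by_cases c1 : e₁ + 1 ≤ J D
  · rw [tt_eq D _ c1]
    have hm := tt_mono hNUM D hD (e₂ + 1) (e₁ + e₂ + 1) (by omega)
    calc Y0 D ^ k₁ * Y0 D * (Y0 D ^ k₂ * TT D (e₂ + 1))
        = Y0 D ^ (k₁ + k₂ + 1) * TT D (e₂ + 1) := by ring
      _ ≤ _ := mul_le_mul_of_nonneg_left hm hp
  · by_cases c2 : e₂ + 1 ≤ J D
    · rw [tt_eq D _ c2]
      have hm := tt_mono hNUM D hD (e₁ + 1) (e₁ + e₂ + 1) (by omega)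
      calc Y0 D ^ k₁ * TT D (e₁ + 1) * (Y0 D ^ k₂ * Y0 D)
          = Y0 D ^ (k₁ + k₂ + 1) * TT D (e₁ + 1) := by ring
        _ ≤ _ := mul_le_mul_of_nonneg_left hm hp
    · exfalso
      unfold J at c1 c2
      omega

/-- Opposite signs. -/
lemma opp (hNUM : Stmt_NUM) (D : ℕ) (hD : 2 ≤ D) (m₁ e₁ m₂ e₂ : ℕ) (h₁ : 1 ≤ m₁) (h₂ : 1 ≤ m₂)
    (he : e₂ ≤ e₁) (h : m₁ + m₂ + e₁ ≤ D) :
    Y0 D ^ (m₁ - 1) * TT D (e₁ + 1) * (Y0 D ^ (m₂ - 1) * TT D (e₂ + 1))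
      ≤ Y0 D ^ (m₁ + m₂ + e₂ - 1) * TT D (e₁ - e₂ + 1) := by
  have hy : 1 < Y0 D := (hNUM D hD).1
  have hy0 : 0 < Y0 D := by linarith
  obtain ⟨k₁, rfl⟩ : ∃ k, m₁ = k + 1 := ⟨m₁ - 1, by omega⟩
  obtain ⟨k₂, rfl⟩ : ∃ k, m₂ = k + 1 := ⟨m₂ - 1, by omega⟩
  have e0 : k₁ + 1 + (k₂ + 1) + e₂ - 1 = k₁ + k₂ + e₂ + 1 := by omega
  rw [e0, Nat.add_sub_cancel, Nat.add_sub_cancel]
  have t1 := tt_bounds hNUM D hD (e₁ + 1)
  have t2 := tt_bounds hNUM D hD (e₂ + 1)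
  have t3 := tt_bounds hNUM D hD (e₁ - e₂ + 1)
  have hp : (0 : ℝ) ≤ Y0 D ^ (k₁ + k₂) := by positivity
  have hlow : Y0 D ^ (k₁ + k₂ + e₂ + 2) ≤ Y0 D ^ (k₁ + k₂ + e₂ + 1) * TT D (e₁ - e₂ + 1) := by
    calc Y0 D ^ (k₁ + k₂ + e₂ + 2) = Y0 D ^ (k₁ + k₂ + e₂ + 1) * Y0 D := by ring
      _ ≤ _ := mul_le_mul_of_nonneg_left t3.1 (by positivity)
  rcases Nat.lt_or_ge e₂ 2 with c | c
  · have hc : e₂ = 0 ∨ e₂ = 1 := by omega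
    rcases hc with rfl | rfl
    · have hJ : 0 + 1 ≤ J D := by unfold J; omega
      rw [tt_eq D (0 + 1) hJ]
      have e1 : e₁ - 0 + 1 = e₁ + 1 := by omega
      rw [e1]
      have : Y0 D ^ k₁ * TT D (e₁ + 1) * (Y0 D ^ k₂ * Y0 D)
          = Y0 D ^ (k₁ + k₂ + 0 + 1) * TT D (e₁ + 1) := by ring
      exact this.le
    · have hJ : 1 + 1 ≤ J D := by unfold J; omega
      rw [tt_eq D (1 + 1) hJ]
      refine le_trans ?_ hlow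
      calc Y0 D ^ k₁ * TT D (e₁ + 1) * (Y0 D ^ k₂ * Y0 D)
          = Y0 D ^ (k₁ + k₂) * Y0 D * TT D (e₁ + 1) := by ring
        _ ≤ Y0 D ^ (k₁ + k₂) * Y0 D * Y0 D ^ 2 :=
            mul_le_mul_of_nonneg_left t1.2 (by positivity)
        _ = Y0 D ^ (k₁ + k₂ + 1 + 2) := by ring
  · refine le_trans ?_ hlow
    have hpos2 : 0 ≤ TT D (e₂ + 1) := le_trans hy0.le t2.1
    have hmul : TT D (e₁ + 1) * TT D (e₂ + 1) ≤ Y0 D ^ 2 * Y0 D ^ 2 :=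
      mul_le_mul t1.2 t2.2 hpos2 (by positivity)
    calc Y0 D ^ k₁ * TT D (e₁ + 1) * (Y0 D ^ k₂ * TT D (e₂ + 1))
        = Y0 D ^ (k₁ + k₂) * (TT D (e₁ + 1) * TT D (e₂ + 1)) := by ring
      _ ≤ Y0 D ^ (k₁ + k₂) * (Y0 D ^ 2 * Y0 D ^ 2) := mul_le_mul_of_nonneg_left hmul hp
      _ = Y0 D ^ (k₁ + k₂ + 4) := by ring
      _ ≤ Y0 D ^ (k₁ + k₂ + e₂ + 2) := pow_le_pow_right₀ hy.le (by omega)

/-- The combinatorial inequality. -/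
lemma comb (hNUM : Stmt_NUM) (D : ℕ) (hD : 2 ≤ D) (a₁ b₁ a₂ b₂ : ℕ) (ha₁ : 1 ≤ a₁) (hb₁ : 1 ≤ b₁)
    (ha₂ : 1 ≤ a₂) (hb₂ : 1 ≤ b₂) (ha : a₁ + a₂ ≤ D) (hb : b₁ + b₂ ≤ D) :
    Y0 D ^ (min a₁ b₁ - 1) * TT D (max a₁ b₁ - min a₁ b₁ + 1) *
      (Y0 D ^ (min a₂ b₂ - 1) * TT D (max a₂ b₂ - min a₂ b₂ + 1))
      ≤ Y0 D ^ (min (a₁ + a₂) (b₁ + b₂) - 1) *
        TT D (max (a₁ + a₂) (b₁ + b₂) - min (a₁ + a₂) (b₁ + b₂) + 1) := by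
  have key : ∀ x₁ y₁ x₂ y₂ : ℕ, 1 ≤ x₁ → 1 ≤ x₂ → 1 ≤ y₂ → x₁ + x₂ ≤ D → y₁ + y₂ ≤ D →
      x₁ ≤ y₁ → 
      Y0 D ^ (x₁ - 1) * TT D (y₁ - x₁ + 1) *
        (Y0 D ^ (min x₂ y₂ - 1) * TT D (max x₂ y₂ - min x₂ y₂ + 1))
        ≤ Y0 D ^ (min (x₁ + x₂) (y₁ + y₂) - 1) *
          TT D (max (x₁ + x₂) (y₁ + y₂) - min (x₁ + x₂) (y₁ + y₂) + 1) := by
    intro x₁ y₁ x₂ y₂ h1 h2 h3 h4 h5 h6
    rcases le_total x₂ y₂ with c | c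
    · rw [min_eq_left c, max_eq_right c, min_eq_left (by omega : x₁ + x₂ ≤ y₁ + y₂),
        max_eq_right (by omega : x₁ + x₂ ≤ y₁ + y₂)]
      have := same hNUM D hD x₁ (y₁ - x₁) x₂ (y₂ - x₂) h1 h2 (by omega)
      have e : y₁ + y₂ - (x₁ + x₂) + 1 = (y₁ - x₁) + (y₂ - x₂) + 1 := by omega
      rw [e]
      exact this
    · rw [min_eq_right c, max_eq_left c]
      rcases le_total (x₂ - y₂) (y₁ - x₁) with d | d
      · rw [min_eq_left (by omega : x₁ + x₂ ≤ y₁ + y₂),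
          max_eq_right (by omega : x₁ + x₂ ≤ y₁ + y₂)]
        have := opp hNUM D hD x₁ (y₁ - x₁) y₂ (x₂ - y₂) h1 h3 d (by omega)
        have e : y₁ + y₂ - (x₁ + x₂) + 1 = (y₁ - x₁) - (x₂ - y₂) + 1 := by omega
        have e' : x₁ + x₂ - 1 = x₁ + y₂ + (x₂ - y₂) - 1 := by omega
        rw [e, e']
        exact this
      · rw [min_eq_right (by omega : y₁ + y₂ ≤ x₁ + x₂),
          max_eq_left (by omega : y₁ + y₂ ≤ x₁ + x₂)]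
        have := opp hNUM D hD y₂ (x₂ - y₂) x₁ (y₁ - x₁) h3 h1 d (by omega)
        have e : x₁ + x₂ - (y₁ + y₂) + 1 = (x₂ - y₂) - (y₁ - x₁) + 1 := by omega
        have e' : y₁ + y₂ - 1 = y₂ + x₁ + (y₁ - x₁) - 1 := by omega
        rw [e, e', mul_comm]
        exact this
  rcases le_total a₁ b₁ with c | c
  · have := key a₁ b₁ a₂ b₂ ha₁ ha₂ hb₂ ha hb c
    rw [min_eq_left c, max_eq_right c]
    exact this
  · have := key b₁ a₁ b₂ a₂ hb₁ hb₂ ha₂ hb ha c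
    rw [min_eq_right c, max_eq_left c]
    rw [min_comm b₂ a₂, max_comm b₂ a₂, min_comm (b₁ + b₂) (a₁ + a₂),
      max_comm (b₁ + b₂) (a₁ + a₂)] at this
    exact this

/-- The first three clauses follow from the fourth. -/
lemma first3 (hNUM : Stmt_NUM) (D : ℕ) (hD : 2 ≤ D) (a b : ℕ) (ha : 1 ≤ a) (hb : 1 ≤ b)
    (haD : a ≤ D) (hbD : b ≤ D) (r : ℝ) (hr : 0 ≤ r)
    (h : Yt D r ≤ Y0 D ^ (min a b - 1) * TT D (max a b - min a b + 1)) : Bd3 D a b r := by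
  obtain ⟨h1, h2, h3, h4, h5, h6, h7⟩ := hNUM D hD
  have hy0 : 0 < Y0 D := by linarith
  have hm1 : 1 ≤ min a b := le_min ha hb
  have hMD : max a b ≤ D := max_le haD hbD
  have hmM : min a b ≤ max a b := min_le_max
  have one : min a b ≤ J D → r ≤ 1 := by
    intro hm
    apply le_of_yt_le D hD r 1 (by norm_num)
    by_cases c : max a b - min a b + 1 ≤ J D
    · rw [tt_eq D _ c, ← pow_succ] at h
      have e : min a b - 1 + 1 = min a b := by omega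
      rw [e] at h
      exact le_trans h (le_trans (pow_le_pow_right₀ h1.le hm) h3)
    · have e : TT D (max a b - min a b + 1) = Yt D (2 / D) := by
        unfold TT; rw [if_neg c]
      rw [e] at h
      refine le_trans h (le_trans ?_ h5)
      apply mul_le_mul_of_nonneg_right _ (le_trans hy0.le h6)
      apply pow_le_pow_right₀ h1.le
      unfold J at c
      omega
  refine ⟨hr, ?_, one⟩
  by_cases hm : min a b ≤ J D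
  · linarith [one hm]
  · apply le_of_yt_le D hD r 2 (by norm_num)
    have c : max a b - min a b + 1 ≤ J D := by
      unfold J at hm ⊢
      omega
    rw [tt_eq D _ c, ← pow_succ] at h
    have e : min a b - 1 + 1 = min a b := by omega
    rw [e] at h
    exact le_trans h (le_trans (pow_le_pow_right₀ h1.le (le_trans hmM hMD)) h4)

end RPAR

open RPAR in
theorem t_RPAR (hNUM : Stmt_NUM) : Stmt_RPAR := by
  intro D a₁ b₁ a₂ b₂ r₁ r₂ r ha₁ hb₁ ha₂ hb₂ ha hb H₁ H₂ hr h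
  have hD : 2 ≤ D := by omega
  obtain ⟨B₁, F₁⟩ := H₁
  obtain ⟨B₂, F₂⟩ := H₂
  have f₁ := F₁ hD
  have f₂ := F₂ hD
  have hy : 1 < Y0 D := (hNUM D hD).1
  have hy0 : 0 < Y0 D := by linarith
  have hm := yt_mul D hD r₁ r₂ r B₁.1 B₂.1 hr h
  have hpos : 0 ≤ Yt D r₂ := by
    unfold Yt
    have h1 := den_pos D r₂ B₂.1
    have h2 := B₂.1
    apply div_nonneg _ h1.le
    linarith
  have hT1 : 0 ≤ Y0 D ^ (min a₁ b₁ - 1) * TT D (max a₁ b₁ - min a₁ b₁ + 1) := by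
    have := (tt_bounds hNUM D hD (max a₁ b₁ - min a₁ b₁ + 1)).1
    have h3 : 0 ≤ TT D (max a₁ b₁ - min a₁ b₁ + 1) := by linarith
    positivity
  have h4 : Yt D r ≤ Y0 D ^ (min (a₁ + a₂) (b₁ + b₂) - 1) *
        TT D (max (a₁ + a₂) (b₁ + b₂) - min (a₁ + a₂) (b₁ + b₂) + 1) :=
    le_trans hm (le_trans (mul_le_mul f₁ f₂ hpos hT1)
      (comb hNUM D hD a₁ b₁ a₂ b₂ ha₁ hb₁ ha₂ hb₂ ha hb))
  exact ⟨first3 hNUM D hD (a₁ + a₂) (b₁ + b₂) (by omega) (by omega) ha hb r hr h4, fun _ => h4⟩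

end Pool.Agent.SPG
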