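import Mathlib
import Pool.Agent.SPG.Stmts

/-!
# Module RPROD: the product of the two moduli in a parallel composition
-/

set_option autoImplicit false

namespace Pool.Agent.SPG

theorem t_RPROD : Stmt_RPROD := by
  intro D a₁ b₁ a₂ b₂ r₁ r₂ ha₁ hb₁ ha₂ hb₂ hab hbb g₁ g₂
  obtain ⟨p₁, q₁, s₁⟩ := g₁
  obtain ⟨p₂, q₂, s₂⟩ := g₂
  have hJ : J D = (D + 1) / 2 := rfl
  rw [hJ] at s₁ s₂
  -- both moduli are at most one if both minima are small
  have small : min a₁ b₁ ≤ (D + 1) / 2 → min a₂ b₂ ≤ (D + 1) / 2 → r₁ * r₂ ≤ 1 := by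
    intro h1 h2
    exact mul_le_one₀ (s₁ h1) p₂ (s₂ h2)
  have two : r₁ * r₂ ≤ 2 := by
    have hor : min a₁ b₁ ≤ (D + 1) / 2 ∨ min a₂ b₂ ≤ (D + 1) / 2 := by omega
    rcases hor with h | h
    · have h1 := s₁ h
      nlinarith
    · have h1 := s₂ h
      nlinarith
  have hD : 1 ≤ D := by omega
  refine ⟨?_, ?_⟩
  · rcases Nat.lt_or_ge D 2 with h | h
    · have hD1 : D = 1 := by omega
      subst hD1
      have := small (by omega) (by omega)
      simpa using this
    · have h2 : (2 : ℝ) ≤ D := by exact_mod_cast h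
      linarith
  · intro h1 h2
    rcases Nat.lt_or_ge D 3 with h | h
    · have hD2 : D = 2 := by omega
      subst hD2
      have := small (by omega) (by omega)
      push_cast
      linarith
    · have h3 : (3 : ℝ) ≤ D := by exact_mod_cast h
      linarith

end Pool.Agent.SPG
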