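import Pool.Agent.SPG.Stmts

/-!
# Module RSER: the real lemma for the series composition
-/

set_option autoImplicit false

namespace Pool.Agent.SPG

namespace RSER

theorem yt_mono {D : ℕ} (hD : 1 ≤ D) {x y : ℝ} (hx : 0 ≤ x) (hxy : x ≤ y) :
    Yt D x ≤ Yt D y := by
  have hD' : (1 : ℝ) ≤ (D : ℝ) := by exact_mod_cast hD
  have hD0 : (0 : ℝ) < (D : ℝ) := by linarith
  have hy : 0 ≤ y := hx.trans hxy
  have h1 : 0 < 1 + x / D := by positivity
  have h2 : 0 < 1 + y / D := by positivity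
  unfold Yt
  rw [div_le_div_iff₀ h1 h2]
  have h3 : (1 + y) * (1 + x / D) - (1 + x) * (1 + y / D) = (y - x) * (1 - 1 / D) := by
    field_simp
    ring
  have h4 : (1 : ℝ) / D ≤ 1 := by
    rw [div_le_one hD0]; exact hD'
  have h5 : 0 ≤ (y - x) * (1 - 1 / D) := mul_nonneg (by linarith) (by linarith)
  linarith

theorem two_J (D : ℕ) : D ≤ 2 * J D := by
  unfold J; omega

end RSER

open RSER

theorem t_RSER (hNUM : Stmt_NUM) : Stmt_RSER := by
  intro D a b b₁ a₂ r₁ r₂ r ha hb hb₁ ha₂ haD hbD hsum h1 h2 hr hr12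
  obtain ⟨h10, h12, h11⟩ := h1
  obtain ⟨h20, h22, h21⟩ := h2
  have hD1 : 1 ≤ D := ha.trans haD
  have hD' : (1 : ℝ) ≤ (D : ℝ) := by exact_mod_cast hD1
  have hD0 : (0 : ℝ) < (D : ℝ) := by linarith
  have hJ := two_J D
  -- the product
  have hprod : r₁ * r₂ ≤ 2 := by
    by_cases hc : min a b₁ ≤ J D
    · have := h11 hc
      nlinarith
    · have hc2 : min a₂ b ≤ J D := by
        by_contra hc2
        have e1 : min a b₁ ≤ b₁ := min_le_right _ _
        have e2 : min a₂ b ≤ a₂ := min_le_left _ _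
        omega
      have := h21 hc2
      nlinarith
  have hr2D : r ≤ 2 / D := hr12.trans (by gcongr)
  have hr1 : r ≤ 1 := by
    by_cases hD2 : 2 ≤ D
    · have hD2' : (2 : ℝ) ≤ (D : ℝ) := by exact_mod_cast hD2
      refine hr2D.trans ?_
      rw [div_le_one hD0]
      exact hD2'
    · have hDe : D = 1 := by omega
      subst hDe
      have hJ1 : J 1 = 1 := by unfold J; norm_num
      have e1 : r₁ ≤ 1 := h11 (by rw [hJ1]; exact (min_le_left _ _).trans haD)
      have e2 : r₂ ≤ 1 := h21 (by rw [hJ1]; exact (min_le_right _ _).trans hbD)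
      have e3 : r₁ * r₂ / ((1 : ℕ) : ℝ) ≤ 1 := by
        rw [Nat.cast_one, div_one]
        nlinarith
      exact hr12.trans e3
  refine ⟨⟨hr, by linarith, fun _ => hr1⟩, fun hD2 => ?_⟩
  obtain ⟨hY1, hYe, -, -, -, hY2, hY3⟩ := hNUM D hD2
  have hY0 : (0 : ℝ) < Y0 D := by linarith
  have hm : 1 ≤ min a b := le_min ha hb
  have hmM : min a b ≤ max a b := min_le_max
  have hTT : Y0 D ≤ TT D (max a b - min a b + 1) := by
    unfold TT
    split_ifs
    · exact le_rfl
    · exact hY2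
  by_cases hM : max a b ≤ J D
  · have e1 : r₁ ≤ 1 := h11 ((min_le_left _ _).trans ((le_max_left a b).trans hM))
    have e2 : r₂ ≤ 1 := h21 ((min_le_right _ _).trans ((le_max_right a b).trans hM))
    have e3 : r ≤ 1 / D := by
      refine hr12.trans ?_
      have : r₁ * r₂ ≤ 1 := by nlinarith
      gcongr
    have e4 : Yt D r ≤ Y0 D := by
      rw [hYe]
      exact yt_mono hD1 hr e3
    have e5 : (1 : ℝ) ≤ Y0 D ^ (min a b - 1) := one_le_pow₀ hY1.le
    calc Yt D r ≤ Y0 D := e4
      _ ≤ TT D (max a b - min a b + 1) := hTT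
      _ = 1 * TT D (max a b - min a b + 1) := (one_mul _).symm
      _ ≤ Y0 D ^ (min a b - 1) * TT D (max a b - min a b + 1) := by
          exact mul_le_mul_of_nonneg_right e5 (hY0.le.trans hTT)
  · have e4 : Yt D r ≤ Yt D (2 / D) := yt_mono hD1 hr hr2D
    by_cases hm1 : min a b = 1
    · have e5 : TT D (max a b - min a b + 1) = Yt D (2 / D) := by
        unfold TT
        rw [if_neg (by omega)]
      rw [e5, hm1]
      simpa using e4
    · have hm2 : 1 ≤ min a b - 1 := by omega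
      have e6 : Y0 D ≤ Y0 D ^ (min a b - 1) := le_self_pow₀ hY1.le (by omega)
      calc Yt D r ≤ Yt D (2 / D) := e4
        _ ≤ Y0 D ^ 2 := hY3
        _ = Y0 D * Y0 D := by ring
        _ ≤ Y0 D ^ (min a b - 1) * TT D (max a b - min a b + 1) :=
            mul_le_mul e6 hTT hY0.le (hY0.le.trans e6)

end Pool.Agent.SPG
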