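import Pool.Agent.SPG.PEND

/-!
# Module SRED: a vertex of degree two is replaced by an edge
-/

set_option autoImplicit false

open Polynomial

namespace Pool.Agent.SPG

namespace SRED

theorem sum_two {n : ℕ} (c d : Fin n) (a₁ b₁ a₂ b₂ : ℂ) :
    ∑ x : Fin n, (if x = c then a₁ else b₁) * (if x = d then a₂ else b₂) =
      if c = d then a₁ * a₂ + ((n : ℂ) - 1) * (b₁ * b₂)
      else a₁ * b₂ + b₁ * a₂ + ((n : ℂ) - 2) * (b₁ * b₂) := by
  by_cases hcd : c = d
  · subst hcd
    rw [if_pos rfl, ← PEND.sum_ite_eq' c (a₁ * a₂) (b₁ * b₂)]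
    apply Finset.sum_congr rfl
    intro x _
    by_cases hx : x = c
    · rw [if_pos hx, if_pos hx, if_pos hx]
    · rw [if_neg hx, if_neg hx, if_neg hx]
  · rw [if_neg hcd]
    have h : ∀ x : Fin n, (if x = c then a₁ else b₁) * (if x = d then a₂ else b₂) =
        (if x = c then (a₁ - b₁) * b₂ else 0) + (if x = d then b₁ * a₂ else b₁ * b₂) := by
      intro x
      by_cases hx : x = c
      · have hd : ¬ x = d := fun h => hcd (hx ▸ h)
        rw [if_pos hx, if_pos hx, if_neg hd, if_neg hd]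
        ring
      · rw [if_neg hx, if_neg hx]
        by_cases hd : x = d
        · rw [if_pos hd, if_pos hd]
          ring
        · rw [if_neg hd, if_neg hd]
          ring
    rw [Finset.sum_congr rfl fun x _ => h x, Finset.sum_add_distrib,
      Finset.sum_ite_eq' Finset.univ c, if_pos (Finset.mem_univ c), PEND.sum_ite_eq']
    ring

theorem wt_congr {V : Type} (A B A' B' : Sym2 V → ℂ[X]) (n : ℕ) (σ : V → Fin n) (e : Sym2 V)
    (hA : A' e = A e) (hB : B' e = B e) : PEND.wt A' B' n σ e = PEND.wt A B n σ e := by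
  unfold PEND.wt
  rw [hA, hB]

theorem wt_pair {V : Type} (A B : Sym2 V → ℂ[X]) (n : ℕ) (σ : V → Fin n) (s t : V) :
    PEND.wt A B n σ s(s, t) =
      if σ s = σ t then (A s(s, t)).eval (n : ℂ) else (B s(s, t)).eval (n : ℂ) := by
  unfold PEND.wt
  have h : ((s(s, t)).map σ).IsDiag ↔ σ s = σ t := by
    rw [Sym2.map_mk, Sym2.mk_isDiag_iff]
  by_cases hc : σ s = σ t
  · rw [if_pos (h.mpr hc), if_pos hc]
  · rw [if_neg (fun hh => hc (h.mp hh)), if_neg hc]

end SRED

/-- Module SRED. -/
theorem t_SRED : Stmt_SRED := by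
  intro V _ _ E A B w s t hws hwt hst hs ht hdeg n
  have hne : s(w, s) ≠ s(w, t) := by
    intro h
    rw [Sym2.eq_iff] at h
    rcases h with h | h
    · exact hst h.2
    · exact hwt h.1
  have hwst : w ∉ s(s, t) := by
    rw [Sym2.mem_iff]
    rintro (h | h)
    · exact hws h
    · exact hwt h
  have hs1 : s(s, t) ≠ s(w, s) := fun h => hwst (h ▸ Sym2.mem_mk_left w s)
  have ht1 : s(s, t) ≠ s(w, t) := fun h => hwst (h ▸ Sym2.mem_mk_left w t)
  set F : Finset (Sym2 V) := (E.erase s(w, s)).erase s(w, t) with hF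
  have hFE : s(s, t) ∈ F ↔ s(s, t) ∈ E := by
    rw [hF, Finset.mem_erase, Finset.mem_erase]
    exact ⟨fun h => h.2.2, fun h => ⟨ht1, hs1, h⟩⟩
  rw [PEND.Z_eq, PEND.Z_eq, ← PEND.sum_update w]
  apply Finset.sum_congr rfl
  intro σ _
  have h1 : ∀ c : Fin n, ∏ e ∈ E, PEND.wt A B n (Function.update σ w c) e =
      ((if c = σ s then (A s(w, s)).eval (n : ℂ) else (B s(w, s)).eval (n : ℂ)) *
        (if c = σ t then (A s(w, t)).eval (n : ℂ) else (B s(w, t)).eval (n : ℂ))) *
        ∏ e ∈ F, PEND.wt A B n σ e := by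
    intro c
    have ht2 : s(w, t) ∈ E.erase s(w, s) := Finset.mem_erase.mpr ⟨hne.symm, ht⟩
    rw [← Finset.mul_prod_erase E _ hs, PEND.wt_edge A B n σ w s hws c,
      ← Finset.mul_prod_erase (E.erase s(w, s)) _ ht2, PEND.wt_edge A B n σ w t hwt c,
      ← hF, ← mul_assoc]
    congr 1
    apply Finset.prod_congr rfl
    intro e he
    rw [hF, Finset.mem_erase, Finset.mem_erase] at he
    refine PEND.wt_update A B n σ w c e fun hw => ?_
    rcases hdeg e he.2.2 hw with h | h
    · exact he.2.1 h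
    · exact he.1 h
  rw [Finset.sum_congr rfl fun c _ => h1 c, ← Finset.sum_mul, SRED.sum_two]
  -- the other side
  have h2 : ∏ e ∈ F, PEND.wt A B n σ e =
      (if s(s, t) ∈ E then PEND.wt A B n σ s(s, t) else 1) *
        ∏ e ∈ F.erase s(s, t), PEND.wt A B n σ e := by
    by_cases h : s(s, t) ∈ E
    · rw [if_pos h, Finset.mul_prod_erase F _ (hFE.mpr h)]
    · rw [if_neg h, one_mul, Finset.erase_eq_of_notMem (fun h' => h (hFE.mp h'))]
  have h3 : insert s(s, t) F = insert s(s, t) (F.erase s(s, t)) := by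
    ext x
    simp only [Finset.mem_insert, Finset.mem_erase]
    tauto
  rw [h2, h3, Finset.prod_insert (Finset.notMem_erase _ _)]
  have h4 : ∀ e ∈ F.erase s(s, t), PEND.wt
      (Function.update A s(s, t) (serA (A s(w, s)) (B s(w, s)) (A s(w, t)) (B s(w, t)) *
        (if s(s, t) ∈ E then A s(s, t) else 1)))
      (Function.update B s(s, t) (serB (A s(w, s)) (B s(w, s)) (A s(w, t)) (B s(w, t)) *
        (if s(s, t) ∈ E then B s(s, t) else 1))) n σ e = PEND.wt A B n σ e := by
    intro e he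
    rw [Finset.mem_erase] at he
    exact SRED.wt_congr _ _ _ _ n σ e (Function.update_of_ne he.1 _ _)
      (Function.update_of_ne he.1 _ _)
  rw [Finset.prod_congr rfl h4, ← mul_assoc]
  congr 1
  rw [SRED.wt_pair, SRED.wt_pair, Function.update_self, Function.update_self]
  unfold serA serB
  by_cases hc : σ s = σ t
  · rw [if_pos hc, if_pos hc, if_pos hc]
    by_cases h : s(s, t) ∈ E
    · rw [if_pos h, if_pos h]
      simp only [eval_mul, eval_add, eval_sub, eval_X, eval_one]
    · rw [if_neg h, if_neg h]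
      simp only [eval_mul, eval_add, eval_sub, eval_X, eval_one]
  · rw [if_neg hc, if_neg hc, if_neg hc]
    by_cases h : s(s, t) ∈ E
    · rw [if_pos h, if_pos h]
      simp only [eval_mul, eval_add, eval_sub, eval_X, eval_ofNat]
    · rw [if_neg h, if_neg h]
      simp only [eval_mul, eval_add, eval_sub, eval_X, eval_ofNat, eval_one]

end Pool.Agent.SPG
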