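import Mathlib
import Pool.Agent.SPG.Stmts

/-!
# Chromatic roots of graphs without a `K₄` minor: module SUP
-/

set_option autoImplicit false

namespace Pool.Agent.SPG.SUP

variable {V : Type} [DecidableEq V]

lemma gr_adj (E : Finset (Sym2 V)) (x y : V) : (gr E).Adj x y ↔ s(x, y) ∈ E ∧ x ≠ y := by
  unfold gr
  rw [SimpleGraph.fromEdgeSet_adj, Finset.mem_coe]

/-- the new edge set -/
def ne (E : Finset (Sym2 V)) (w s t : V) : Finset (Sym2 V) :=
  insert s(s, t) ((E.erase s(w, s)).erase s(w, t))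

lemma mem_ne (E : Finset (Sym2 V)) (w s t : V) (e : Sym2 V) (h : e ∈ ne E w s t) :
    e = s(s, t) ∨ (e ∈ E ∧ e ≠ s(w, s) ∧ e ≠ s(w, t)) := by
  unfold ne at h
  rcases Finset.mem_insert.1 h with h | h
  · exact Or.inl h
  · have h1 := Finset.mem_erase.1 h
    have h2 := Finset.mem_erase.1 h1.2
    exact Or.inr ⟨h2.2, h2.1, h1.1⟩

lemma isolated (E : Finset (Sym2 V)) (w s t : V) (hws : w ≠ s) (hwt : w ≠ t)
    (h : ∀ e ∈ E, w ∈ e → e = s(w, s) ∨ e = s(w, t)) (x : V) :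
    ¬ (gr (ne E w s t)).Adj w x := by
  intro hx
  have h1 := (gr_adj _ _ _).1 hx
  rcases mem_ne E w s t _ h1.1 with h2 | ⟨h2, h3, h4⟩
  · have : w ∈ s(s, t) := by
      rw [← h2]; exact Sym2.mem_mk_left w x
    rcases Sym2.mem_iff.1 this with h5 | h5
    · exact hws h5
    · exact hwt h5
  · rcases h _ h2 (Sym2.mem_mk_left w x) with h5 | h5
    · exact h3 h5
    · exact h4 h5

lemma walk_nil {W : Type} (H : SimpleGraph W) (w x : W) (h : ∀ y, ¬ H.Adj w y)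
    (hr : H.Reachable w x) : w = x := by
  obtain ⟨p⟩ := hr
  cases p with
  | nil => rfl
  | cons hadj _ => exact absurd hadj (h _)

/-- new branch set -/
def nb (B : Set V) (w s : V) : Set V := {x | x ∈ B ∨ (x = w ∧ s ∈ B)}

lemma step (E : Finset (Sym2 V)) (w s t : V) (hws : w ≠ s) (hwt : w ≠ t)
    (h1 : s(w, s) ∈ E) (h2 : s(w, t) ∈ E) (B : Set V) (x y : V) (hx : x ∈ B) (hy : y ∈ B)
    (hxy : (gr (ne E w s t)).Adj x y) :
    ((gr E).induce (nb B w s)).Reachable ⟨x, Or.inl hx⟩ ⟨y, Or.inl hy⟩ := by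
  have h3 := (gr_adj _ _ _).1 hxy
  have hsw : (gr E).Adj w s := (gr_adj _ _ _).2 ⟨h1, hws⟩
  have htw : (gr E).Adj w t := (gr_adj _ _ _).2 ⟨h2, hwt⟩
  rcases mem_ne E w s t _ h3.1 with h4 | ⟨h4, _, _⟩
  · rcases Sym2.eq_iff.1 h4 with ⟨h5, h6⟩ | ⟨h5, h6⟩
    · subst h5; subst h6
      have hw : w ∈ nb B w x := Or.inr ⟨rfl, hx⟩
      have a1 : ((gr E).induce (nb B w x)).Adj ⟨x, Or.inl hx⟩ ⟨w, hw⟩ := hsw.symm
      have a2 : ((gr E).induce (nb B w x)).Adj ⟨w, hw⟩ ⟨y, Or.inl hy⟩ := htw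
      exact a1.reachable.trans a2.reachable
    · subst h5; subst h6
      have hw : w ∈ nb B w y := Or.inr ⟨rfl, hy⟩
      have a1 : ((gr E).induce (nb B w y)).Adj ⟨x, Or.inl hx⟩ ⟨w, hw⟩ := htw.symm
      have a2 : ((gr E).induce (nb B w y)).Adj ⟨w, hw⟩ ⟨y, Or.inl hy⟩ := hsw
      exact a1.reachable.trans a2.reachable
  · have a : ((gr E).induce (nb B w s)).Adj ⟨x, Or.inl hx⟩ ⟨y, Or.inl hy⟩ :=
      (gr_adj _ _ _).2 ⟨h4, h3.2⟩
    exact a.reachable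

lemma lift_walk (E : Finset (Sym2 V)) (w s t : V) (hws : w ≠ s) (hwt : w ≠ t)
    (h1 : s(w, s) ∈ E) (h2 : s(w, t) ∈ E) (B : Set V) (x y : B)
    (p : ((gr (ne E w s t)).induce B).Walk x y) :
    ((gr E).induce (nb B w s)).Reachable ⟨x.1, Or.inl x.2⟩ ⟨y.1, Or.inl y.2⟩ := by
  induction p with
  | nil => exact SimpleGraph.Reachable.refl _
  | @cons u v z hadj _ ih =>
    exact (step E w s t hws hwt h1 h2 B u.1 v.1 u.2 v.2 hadj).trans ih

end Pool.Agent.SPG.SUP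

namespace Pool.Agent.SPG

open SUP in
/-- Module SUP. -/
theorem t_SUP : Stmt_SUP := by
  intro V _ E w s t hws hwt hst h1 h2 h hk
  obtain ⟨B, hc, hd, he⟩ := hk
  have hiso := isolated E w s t hws hwt h
  have hwB : ∀ k, w ∉ B k := by
    intro k hwk
    obtain ⟨j, hj⟩ : ∃ j : Fin 4, k ≠ j := by
      by_cases h0 : k = 0
      · exact ⟨1, by rw [h0]; decide⟩
      · exact ⟨0, h0⟩
    obtain ⟨x, hx, y, hy, hxy⟩ := he k j hj
    have hr := (hc k).preconnected ⟨w, hwk⟩ ⟨x, hx⟩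
    have hwx := walk_nil _ _ _ (fun z hz => hiso z.1 hz) hr
    have hwx' : w = x := congrArg Subtype.val hwx
    subst hwx'
    exact hiso y hxy
  refine ⟨fun k => nb (B k) w s, ?_, ?_, ?_⟩
  · intro k
    obtain ⟨z⟩ := (hc k).nonempty
    have key : ∀ x : nb (B k) w s,
        ((gr E).induce (nb (B k) w s)).Reachable x ⟨z.1, Or.inl z.2⟩ := by
      rintro ⟨x, hx | ⟨hx, hs⟩⟩
      · obtain ⟨p⟩ := (hc k).preconnected ⟨x, hx⟩ z
        exact lift_walk E w s t hws hwt h1 h2 (B k) _ _ p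
      · subst hx
        obtain ⟨p⟩ := (hc k).preconnected ⟨s, hs⟩ z
        have a := lift_walk E x s t hws hwt h1 h2 (B k) _ _ p
        have b : ((gr E).induce (nb (B k) x s)).Adj ⟨x, Or.inr ⟨rfl, hs⟩⟩ ⟨s, Or.inl hs⟩ :=
          (gr_adj _ _ _).2 ⟨h1, hws⟩
        exact b.reachable.trans a
    have : Nonempty (nb (B k) w s) := ⟨⟨z.1, Or.inl z.2⟩⟩
    exact SimpleGraph.Connected.mk (fun x y => (key x).trans (key y).symm)
  · intro i j hij
    rw [Set.disjoint_left]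
    intro x hx hy
    have hdd := Set.disjoint_left.1 (hd i j hij)
    rcases hx with hx | ⟨hx, hsi⟩
    · rcases hy with hy | ⟨hy, _⟩
      · exact hdd hx hy
      · subst hy
        exact hwB i hx
    · rcases hy with hy | ⟨_, hsj⟩
      · subst hx
        exact hwB j hy
      · exact hdd hsi hsj
  · intro i j hij
    obtain ⟨x, hx, y, hy, hxy⟩ := he i j hij
    have h3 := (gr_adj _ _ _).1 hxy
    rcases mem_ne E w s t _ h3.1 with h4 | ⟨h4, _, _⟩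
    · rcases Sym2.eq_iff.1 h4 with ⟨h5, h6⟩ | ⟨h5, h6⟩
      · subst h5; subst h6
        exact ⟨w, Or.inr ⟨rfl, hx⟩, y, Or.inl hy, (gr_adj _ _ _).2 ⟨h2, hwt⟩⟩
      · subst h5; subst h6
        exact ⟨x, Or.inl hx, w, Or.inr ⟨rfl, hy⟩, ((gr_adj _ _ _).2 ⟨h2, hwt⟩).symm⟩
    · exact ⟨x, Or.inl hx, y, Or.inl hy, (gr_adj _ _ _).2 ⟨h4, h3.2⟩⟩

end Pool.Agent.SPG
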